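import Pool.Agent.Q180.PL.Vdc
import Pool.Agent.H535R3.JE
import Pool.Agent.H535R3.JB

set_option autoImplicit false
open Set Filter Topology MeasureTheory

/-!
# Asymptotics of the symmetric solution
-/

namespace Pool.Agent.Q180.PL
open H535R3

variable {r : ℤ} {a ε : ℝ}

noncomputable def I1 (r : ℤ) (a ε s : ℝ) : ℝ :=
  ∫ u in (0:ℝ)..s, Real.sin (fl r a ε (Real.pi / 2) u)

lemma sinfl_cont (r : ℤ) (a ε : ℝ) :
    Continuous fun u => Real.sin (fl r a ε (Real.pi / 2) u) :=
  Real.continuous_sin.comp (fl_sol _ _ _ _).cont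

lemma I1_deriv (r : ℤ) (a ε s : ℝ) :
    HasDerivAt (I1 r a ε) (Real.sin (fl r a ε (Real.pi / 2) s)) s := by
  unfold I1
  exact intervalIntegral.integral_hasDerivAt_right ((sinfl_cont r a ε).intervalIntegrable _ _)
    ((sinfl_cont r a ε).stronglyMeasurableAtFilter _ _) (sinfl_cont r a ε).continuousAt

lemma fl_form (r : ℤ) (a ε s : ℝ) :
    fl r a ε (Real.pi / 2) s = Real.pi / 2 + Th r a s - ε * I1 r a ε s := by
  have h : ∀ t, HasDerivAt (fun s => fl r a ε (Real.pi / 2) s -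
      (Real.pi / 2 + Th r a s - ε * I1 r a ε s)) 0 t := by
    intro t
    have h1 := (fl_sol r a ε (Real.pi / 2) t).sub
      (((Th_deriv r a t).const_add (Real.pi / 2)).sub ((I1_deriv r a ε t).const_mul ε))
    exact h1.congr_deriv (by ring)
  have h2 := is_const_of_deriv_eq_zero (fun t => (h t).differentiableAt) (fun t => (h t).deriv) s 0
  simp only [fl_zero] at h2
  have h3 : Th r a 0 = 0 := by simp [Th]
  have h4 : I1 r a ε 0 = 0 := by simp [I1]
  rw [h3, h4] at h2
  linarith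

lemma I1_re (r : ℤ) (a ε y : ℝ) : I1 r a ε y = (∫ s in (0:ℝ)..y,
    Complex.exp (-(Complex.I * (ε * I1 r a ε s : ℝ))) *
      Complex.exp (Complex.I * (Th r a s : ℝ))).re := by
  have hc : Continuous fun s : ℝ => Complex.exp (-(Complex.I * (ε * I1 r a ε s : ℝ))) *
      Complex.exp (Complex.I * (Th r a s : ℝ)) := by
    have h1 : Continuous (I1 r a ε) :=
      continuous_iff_continuousAt.2 fun s => (I1_deriv r a ε s).continuousAt
    have h2 := Th_cont r a
    have h3 : Continuous fun s : ℝ => ((ε * I1 r a ε s : ℝ) : ℂ) :=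
      Complex.continuous_ofReal.comp (by fun_prop)
    have h4 : Continuous fun s : ℝ => ((Th r a s : ℝ) : ℂ) :=
      Complex.continuous_ofReal.comp h2
    fun_prop
  have h1 := (Complex.reCLM.intervalIntegral_comp_comm (hc.intervalIntegrable (μ := volume) 0 y))
  simp only [Complex.reCLM_apply] at h1
  rw [← h1]
  unfold I1
  refine intervalIntegral.integral_congr fun s _ => ?_
  rw [fl_form]
  have e1 : Complex.exp (-(Complex.I * ((ε * ∫ u in (0:ℝ)..s,
      Real.sin (fl r a ε (Real.pi / 2) u) : ℝ) : ℂ))) *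
      Complex.exp (Complex.I * (Th r a s : ℝ)) =
      Complex.exp (((Th r a s - ε * I1 r a ε s : ℝ) : ℂ) * Complex.I) := by
    rw [← Complex.exp_add]
    congr 1
    unfold I1
    push_cast
    ring
  rw [e1, Complex.exp_ofReal_mul_I_re]
  rw [show Real.pi / 2 + Th r a s - ε * I1 r a ε s = Real.pi / 2 - (-(Th r a s - ε * I1 r a ε s))
    by ring, Real.sin_pi_div_two_sub, Real.cos_neg]

lemma M_re (r : ℤ) (a : ℝ) : M r a = (∫ s in (0:ℝ)..Real.pi,
    (1:ℂ) * Complex.exp (Complex.I * (Th r a s : ℝ))).re := by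
  have hc : Continuous fun s : ℝ => (1:ℂ) * Complex.exp (Complex.I * (Th r a s : ℝ)) := by
    have h4 : Continuous fun s : ℝ => ((Th r a s : ℝ) : ℂ) :=
      Complex.continuous_ofReal.comp (Th_cont r a)
    fun_prop
  have h1 := (Complex.reCLM.intervalIntegral_comp_comm
    (hc.intervalIntegrable (μ := volume) 0 Real.pi))
  simp only [Complex.reCLM_apply] at h1
  rw [← h1]
  unfold M
  refine intervalIntegral.integral_congr fun s _ => ?_
  rw [one_mul, mul_comm, Complex.exp_ofReal_mul_I_re]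

lemma norm_exp_sub_one_le (x : ℝ) : ‖Complex.exp (-(Complex.I * (x : ℝ))) - 1‖ ≤ |x| := by
  have h := Real.norm_exp_I_mul_ofReal_sub_one_le (x := -x)
  have e : Complex.I * ((-x : ℝ) : ℂ) = -(Complex.I * (x : ℝ)) := by push_cast; ring
  rw [e] at h
  rw [Real.norm_eq_abs, abs_neg] at h
  exact h

/-- `∫₀^π sin φ` is `M` up to `O(κ⁻²)`, `a = κ³`. -/
theorem I1_asym (r : ℤ) {ε : ℝ} (hε : 0 < ε) : ∃ C : ℝ, 0 < C ∧ ∀ κ : ℝ, 1 ≤ κ →
    3 * |(r:ℝ)| ≤ κ ^ 3 → |I1 r (κ ^ 3) ε Real.pi - M r (κ ^ 3)| ≤ C / κ ^ 2 := by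
  refine ⟨12 * ε + 18 * (ε * (12 * ε + 18)), by positivity, fun κ hκ hr => ?_⟩
  have hκ0 : 0 < κ := by linarith
  have hpi := Real.pi_pos
  set a := κ ^ 3 with ha
  set f : ℝ → ℂ := fun s => Complex.exp (-(Complex.I * (ε * I1 r a ε s : ℝ))) with hf
  set f' : ℝ → ℂ := fun s => f s * (-(Complex.I *
    ((ε * Real.sin (fl r a ε (Real.pi / 2) s) : ℝ) : ℂ))) with hf'
  have hfd : ∀ s, HasDerivAt f (f' s) s := by
    intro s
    have := (((I1_deriv r a ε s).const_mul ε).ofReal_comp.const_mul Complex.I).neg.cexp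
    exact this
  have hfc : Continuous f := continuous_iff_continuousAt.2 fun s => (hfd s).continuousAt
  have hfc' : Continuous f' := by
    simp only [hf']
    have h3 : Continuous fun s : ℝ => ((ε * Real.sin (fl r a ε (Real.pi / 2) s) : ℝ) : ℂ) :=
      Complex.continuous_ofReal.comp ((sinfl_cont r a ε).const_smul ε)
    fun_prop
  have hfn : ∀ s, ‖f s‖ = 1 := by
    intro s
    simp only [hf]
    rw [show -(Complex.I * ((ε * I1 r a ε s : ℝ) : ℂ)) = ((-(ε * I1 r a ε s) : ℝ) : ℂ) * Complex.I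
      by push_cast; ring]
    exact Complex.norm_exp_ofReal_mul_I _
  have hfn' : ∀ s, ‖f' s‖ ≤ ε := by
    intro s
    simp only [hf']
    rw [norm_mul, hfn, one_mul, norm_neg, norm_mul, Complex.norm_I, one_mul, Complex.norm_real,
      Real.norm_eq_abs, abs_mul, abs_of_pos hε]
    exact mul_le_of_le_one_right hε.le (Real.abs_sin_le_one _)
  have hI : ∀ y ∈ Icc 0 Real.pi, |I1 r a ε y| ≤ (12 * ε + 18) / κ := by
    intro y hy
    have h1 := vdc hκ ha hr hfd hfc' (B := 1) (B1 := ε) (fun s _ => (hfn s).le)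
      (fun s _ => hfn' s) hy
    rw [I1_re]
    refine (Complex.abs_re_le_norm _).trans (h1.trans ?_)
    have h2 : 12 * ε / κ ^ 2 ≤ 12 * ε / κ := by
      apply div_le_div_of_nonneg_left (by positivity) hκ0
      nlinarith
    have h3 : (12 * ε + 18) / κ = 12 * ε / κ + 18 * 1 / κ := by ring
    linarith
  have hd1 : ∀ s, HasDerivAt (fun s => f s - 1) (f' s) s := fun s => (hfd s).sub_const 1
  have h1 := vdc hκ ha hr hd1 hfc' (B := ε * ((12 * ε + 18) / κ)) (B1 := ε) (fun s hs => by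
      refine (norm_exp_sub_one_le _).trans ?_
      rw [abs_mul, abs_of_pos hε]
      exact mul_le_mul_of_nonneg_left (hI s hs) hε.le)
      (fun s _ => hfn' s) (y := Real.pi) ⟨hpi.le, le_rfl⟩
  have hec : Continuous fun s : ℝ => Complex.exp (Complex.I * (Th r a s : ℝ)) := by
    have h4 : Continuous fun s : ℝ => ((Th r a s : ℝ) : ℂ) :=
      Complex.continuous_ofReal.comp (Th_cont r a)
    fun_prop
  have h2 : I1 r a ε Real.pi - M r a = (∫ s in (0:ℝ)..Real.pi,
      (f s - 1) * Complex.exp (Complex.I * (Th r a s : ℝ))).re := by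
    have i1 : IntervalIntegrable (fun s : ℝ => Complex.exp (-(Complex.I * (ε * I1 r a ε s : ℝ))) *
      Complex.exp (Complex.I * (Th r a s : ℝ))) volume 0 Real.pi :=
      (hfc.mul hec).intervalIntegrable _ _
    have i2 : IntervalIntegrable (fun s : ℝ => (1:ℂ) * Complex.exp (Complex.I * (Th r a s : ℝ)))
      volume 0 Real.pi := (continuous_const.mul hec).intervalIntegrable _ _
    rw [I1_re, M_re, ← Complex.sub_re, ← intervalIntegral.integral_sub i1 i2]
    congr 1
    refine intervalIntegral.integral_congr fun s _ => ?_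
    simp only [hf]
    ring
  rw [h2]
  refine (Complex.abs_re_le_norm _).trans (h1.trans (le_of_eq ?_))
  field_simp

/-- the sign of `P - id` at `π/2` is opposite to the sign of `I1` at `π` -/
lemma P_sign (hε : 0 < ε) :
    (0 < I1 r a ε Real.pi → P r a ε (Real.pi / 2) < Real.pi / 2 + 2 * Real.pi * r) ∧
    (I1 r a ε Real.pi < 0 → Real.pi / 2 + 2 * Real.pi * r < P r a ε (Real.pi / 2)) := by
  set φ := fl r a ε (Real.pi / 2) with hφ
  have hs : Sol r a ε φ := fl_sol _ _ _ _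
  have h1 : φ Real.pi = Real.pi / 2 + r * Real.pi - ε * I1 r a ε Real.pi := by
    rw [hφ, fl_form]
    simp [Th]
  have h2 : φ (-Real.pi) = Real.pi - φ Real.pi := sym_sol Real.pi
  have h3 := hs.shift
  have h4 := hs.add_two_pi r
  have h0 : φ 0 = Real.pi / 2 := fl_zero _ _ _ _
  constructor
  · intro h
    have h5 := h3.lt_of_lt h4 (s := -Real.pi) (by
      rw [show -Real.pi + 2 * Real.pi = Real.pi by ring, h2, h1]
      nlinarith [mul_pos hε h]) 0
    simp only [zero_add] at h5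
    rw [P, ← hφ]
    linarith
  · intro h
    have h5 := h4.lt_of_lt h3 (s := -Real.pi) (by
      rw [show -Real.pi + 2 * Real.pi = Real.pi by ring, h2, h1]
      nlinarith [mul_neg_of_pos_of_neg hε h]) 0
    simp only [zero_add] at h5
    rw [P, ← hφ]
    linarith

/-- `π/2` is a fixed point of the period map minus `2πr` for arbitrarily large `a`. -/
theorem fixed_large (r : ℕ) {ε : ℝ} (hε : 0 < ε) (A : ℝ) : ∃ a, A ≤ a ∧
    P r a ε (Real.pi / 2) = Real.pi / 2 + 2 * Real.pi * r := by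
  obtain ⟨c, hc, hosc⟩ := oscillation r
  obtain ⟨C, hC, hasym⟩ := I1_asym r hε
  -- threshold
  obtain ⟨A1, hA1⟩ : ∃ A1 : ℝ, ∀ a, A1 ≤ a → 1 ≤ a ∧ 3 * |((r:ℤ):ℝ)| ≤ a ∧
      |I1 r a ε Real.pi - M r a| < c / √a := by
    set B : ℝ := max 1 (max (3 * |((r:ℤ):ℝ)|) ((C / c) ^ 6 + 1)) with hB
    refine ⟨B, fun a ha => ?_⟩
    have h1 : 1 ≤ a := (le_max_left _ _).trans ha
    have h2 : 3 * |((r:ℤ):ℝ)| ≤ a := (le_max_left _ _).trans ((le_max_right _ _).trans ha)
    have h3 : (C / c) ^ 6 + 1 ≤ a := (le_max_right _ _).trans ((le_max_right _ _).trans ha)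
    refine ⟨h1, h2, ?_⟩
    have ha0 : 0 < a := by linarith
    -- κ
    set ρ : ℝ := a ^ (1 / 6 : ℝ) with hρ
    have hρ1 : 1 ≤ ρ := Real.one_le_rpow h1 (by norm_num)
    have hρ0 : 0 < ρ := by linarith
    have hρ6 : ρ ^ 6 = a := by
      rw [hρ, ← Real.rpow_natCast, ← Real.rpow_mul ha0.le]
      norm_num
    have hk : (ρ ^ 2) ^ 3 = a := by rw [← hρ6]; ring
    have h4 := hasym (ρ ^ 2) (one_le_pow₀ hρ1) (by rw [hk]; exact h2)
    rw [hk] at h4
    refine lt_of_le_of_lt h4 ?_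
    have h5 : √a = ρ ^ 3 := by
      rw [← hρ6, show ρ ^ 6 = (ρ ^ 3) ^ 2 by ring, Real.sqrt_sq (by positivity)]
    rw [h5, div_lt_div_iff₀ (by positivity) (by positivity)]
    have h6 : C / c < ρ := by
      by_contra hcon
      push Not at hcon
      have := pow_le_pow_left₀ hρ0.le hcon 6
      rw [hρ6] at this
      linarith
    rw [div_lt_iff₀ hc] at h6
    have : 0 < ρ ^ 3 := by positivity
    calc C * ρ ^ 3 < (ρ * c) * ρ ^ 3 := mul_lt_mul_of_pos_right h6 this
      _ = c * (ρ ^ 2) ^ 2 := by ring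
  obtain ⟨⟨a1, h1, h2⟩, -⟩ := hosc (max A A1)
  obtain ⟨-, ⟨a2, h3, h4⟩⟩ := hosc (max A A1)
  have e1 := (hA1 a1 ((le_max_right _ _).trans h1)).2.2
  have e2 := (hA1 a2 ((le_max_right _ _).trans h3)).2.2
  rw [abs_lt] at e1 e2
  have p1 := (P_sign (r := r) (a := a1) hε).1 (by linarith)
  have p2 := (P_sign (r := r) (a := a2) hε).2 (by linarith)
  have hcont : Continuous fun a => P r a ε (Real.pi / 2) := by
    have := cont_q' ε (Real.pi / 2)
    exact this.comp (Continuous.prodMk continuous_const continuous_id)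
  have hmem : Real.pi / 2 + 2 * Real.pi * r ∈ uIcc (P (r:ℝ) a1 ε (Real.pi / 2))
      (P (r:ℝ) a2 ε (Real.pi / 2)) := by
    rw [mem_uIcc]
    left
    push_cast at p1 p2
    exact ⟨p1.le, p2.le⟩
  obtain ⟨a, ha, hPa⟩ := intermediate_value_uIcc (f := fun a => P (r:ℝ) a ε (Real.pi / 2))
    hcont.continuousOn hmem
  refine ⟨a, ?_, hPa⟩
  have h5 : A ≤ a1 := (le_max_left _ _).trans h1
  have h6 : A ≤ a2 := (le_max_left _ _).trans h3
  rcases mem_uIcc.1 ha with h | h
  · exact h5.trans h.1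
  · exact h6.trans h.1
where
  cont_q' (ε x : ℝ) : Continuous fun q : ℝ × ℝ => P q.1 q.2 ε x :=
    continuous_P.comp (Continuous.prodMk continuous_fst (Continuous.prodMk continuous_snd
      (Continuous.prodMk continuous_const continuous_const)))

end Pool.Agent.Q180.PL
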