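import Pool.Agent.H535R3.KC

set_option autoImplicit false
open Set Filter Topology

namespace Pool.Agent.Q180.PL
open H535R3

/-- The line `b = 0` lies in `L_0`. -/
lemma zero_axis (a ε : ℝ) : ((0:ℝ), a) ∈ Ls 0 ε := by
  obtain ⟨y, hy⟩ := zero_b a ε
  -- symmetric point
  obtain ⟨z, hz⟩ : ∃ z, z ≤ P 0 a ε z := by
    refine ⟨-(fl 0 a ε y Real.pi), ?_⟩
    set φ := fl 0 a ε y with hφd
    have hφ : Sol 0 a ε φ := fl_sol 0 a ε y
    have hψ : Sol 0 a ε (fun t => -(φ (t + Real.pi))) := by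
      intro t
      have h1 := ((hφ (t + Real.pi)).comp_add_const t Real.pi).neg
      refine h1.congr_deriv ?_
      simp only [Real.sin_neg, Real.cos_add_pi]; ring
    have h3 := congrFun hψ.eq_fl (2 * Real.pi)
    simp only [zero_add] at h3
    rw [P, ← h3]
    have h4 : φ (2 * Real.pi) ≤ φ 0 := by
      rw [P] at hy
      rw [hφd, fl_zero]; exact hy
    have h5 : φ (Real.pi + 2 * Real.pi) ≤ φ Real.pi := by
      rcases h4.lt_or_eq with h6 | h6
      · exact (hφ.shift.lt_of_lt hφ (s := 0) (by simpa using h6) Real.pi).le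
      · have h7 := hφ.shift.unique hφ (t0 := 0) (by simpa using h6)
        exact (congrFun h7 Real.pi).le
    rw [show 2 * Real.pi + Real.pi = Real.pi + 2 * Real.pi by ring]
    linarith
  refine mem_Ls_of (u := z) (v := y) ?_ ?_
  · simpa using hz
  · simpa using hy

/-- A point of `L_r` that is alone on its horizontal line lies on the axis. -/
lemma single_axis {r : ℤ} {ε b a : ℝ} (hε : 0 < ε) (ha : 0 < a) (h : (b, a) ∈ Ls r ε)
    (hu : ∀ b', (b', a) ∈ Ls r ε → b' = b) : b = r := by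
  rcases lt_trichotomy r 0 with hr | hr | hr
  · have h1 : (-b, a) ∈ Ls (-r) ε := Ls_neg h
    have hu1 : ∀ b', (b', a) ∈ Ls (-r) ε → b' = -b := single_neg hu
    obtain ⟨m, hm⟩ : ∃ m : ℕ, -r = m := ⟨(-r).toNat, by omega⟩
    have hall := single_ident h1 hu1
    rw [hm] at hall
    have h2 := ident_axis (r := m) (by omega) hε ha (fun x => by
      have := hall x; push_cast at this; exact this)
    have h3 : ((-r : ℤ) : ℝ) = m := by rw [hm]; simp
    push_cast at h3
    linarith
  · subst hr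
    have h1 : (-b, a) ∈ Ls 0 ε := by simpa using Ls_neg h
    have := hu _ h1
    simp only [Int.cast_zero]; linarith
  · obtain ⟨m, hm⟩ : ∃ m : ℕ, r = m := ⟨r.toNat, by omega⟩
    subst hm
    have hall := single_ident h hu
    have h2 := ident_axis (r := m) (by omega) hε ha (fun x => by
      have := hall x; push_cast at this; exact this)
    rw [h2]; simp

/-- The part of the axis above a locked point is locked. -/
lemma axis_up {r : ℤ} {ε a a' : ℝ} (hε : 0 < ε) (ha : 0 ≤ a) (haa : a ≤ a')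
    (h : ((r:ℝ), a) ∈ Ls r ε) : ((r:ℝ), a') ∈ Ls r ε := by
  have key : ∀ n : ℕ, (((n:ℝ) + 1, a) : ℝ × ℝ) ∈ Ls ((n:ℤ) + 1) ε →
      (((n:ℝ) + 1, a') : ℝ × ℝ) ∈ Ls ((n:ℤ) + 1) ε := by
    intro n hn
    exact (axis_iff n (ha.trans haa) hε).2 (((axis_iff n ha hε).1 hn).trans haa)
  rcases lt_trichotomy r 0 with hr | hr | hr
  · obtain ⟨n, hn⟩ : ∃ n : ℕ, r = -((n:ℤ) + 1) := ⟨(-r - 1).toNat, by omega⟩
    subst hn
    have h1 := Ls_neg h
    push_cast at h1
    rw [neg_neg] at h1
    have h2 : (((n:ℝ) + 1, a') : ℝ × ℝ) ∈ Ls ((n:ℤ) + 1) ε := by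
      apply key
      convert h1 using 2
      ring
    have h3 := Ls_neg h2
    convert h3 using 2
    push_cast; ring
  · subst hr
    simpa using zero_axis a' ε
  · obtain ⟨n, hn⟩ : ∃ n : ℕ, r = (n:ℤ) + 1 := ⟨(r - 1).toNat, by omega⟩
    subst hn
    have h1 := key n (by push_cast at h; exact h)
    push_cast; exact h1

end Pool.Agent.Q180.PL
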