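import Mathlib

set_option autoImplicit false
open Set Filter Topology MeasureTheory

/-!
# Oscillation of the Bessel integral `M r a = ∫₀^π cos (r s + a sin s) ds`
-/

namespace Pool.Agent.Q180.PL

/-- differentiation under the integral sign for bounded continuous integrands -/
lemma deriv_int {F F' : ℝ → ℝ → ℝ} (hF : ∀ a, Continuous (F a)) (hF' : ∀ a, Continuous (F' a))
    {B : ℝ} (hb : ∀ a s, |F' a s| ≤ B) (hd : ∀ a s, HasDerivAt (fun a => F a s) (F' a s) a)
    (a : ℝ) : HasDerivAt (fun a => ∫ s in (0:ℝ)..Real.pi, F a s)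
      (∫ s in (0:ℝ)..Real.pi, F' a s) a := by
  refine (intervalIntegral.hasDerivAt_integral_of_dominated_loc_of_deriv_le (s := univ)
    (bound := fun _ => B) univ_mem ?_ ?_ ?_ ?_ ?_ ?_).2
  · exact Eventually.of_forall fun a => (hF a).aestronglyMeasurable
  · exact (hF a).intervalIntegrable _ _
  · exact (hF' a).aestronglyMeasurable
  · exact ae_of_all _ fun t _ x _ => by rw [Real.norm_eq_abs]; exact hb x t
  · exact intervalIntegrable_const
  · exact ae_of_all _ fun t _ x _ => hd x t

noncomputable def Th (r : ℤ) (a s : ℝ) : ℝ := r * s + a * Real.sin s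

noncomputable def M (r : ℤ) (a : ℝ) : ℝ := ∫ s in (0:ℝ)..Real.pi, Real.cos (Th r a s)
noncomputable def N (r : ℤ) (a : ℝ) : ℝ :=
  ∫ s in (0:ℝ)..Real.pi, -(Real.sin s * Real.sin (Th r a s))
noncomputable def Q (r : ℤ) (a : ℝ) : ℝ :=
  ∫ s in (0:ℝ)..Real.pi, -(Real.sin s ^ 2 * Real.cos (Th r a s))

lemma Th_cont (r : ℤ) (a : ℝ) : Continuous (Th r a) := by
  unfold Th; fun_prop

lemma Th_deriv (r : ℤ) (a s : ℝ) : HasDerivAt (Th r a) (r + a * Real.cos s) s := by
  unfold Th
  have h1 := ((hasDerivAt_id s).const_mul (r:ℝ)).add ((Real.hasDerivAt_sin s).const_mul a)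
  exact h1.congr_deriv (by ring)

lemma Th_deriv_a (r : ℤ) (a s : ℝ) : HasDerivAt (fun a => Th r a s) (Real.sin s) a := by
  unfold Th
  have h1 := ((hasDerivAt_id a).mul_const (Real.sin s)).const_add ((r:ℝ) * s)
  simpa using h1

lemma M_deriv (r : ℤ) (a : ℝ) : HasDerivAt (M r) (N r a) a := by
  unfold M N
  refine deriv_int (F := fun a s => Real.cos (Th r a s))
    (F' := fun a s => -(Real.sin s * Real.sin (Th r a s))) (B := 1) ?_ ?_ ?_ ?_ a
  · exact fun a => Real.continuous_cos.comp (Th_cont r a)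
  · exact fun a => (Real.continuous_sin.mul (Real.continuous_sin.comp (Th_cont r a))).neg
  · intro a s
    rw [abs_neg, abs_mul]
    exact mul_le_one₀ (Real.abs_sin_le_one _) (abs_nonneg _) (Real.abs_sin_le_one _)
  · intro a s
    have := (Th_deriv_a r a s).cos
    refine this.congr_deriv ?_
    ring

lemma N_deriv (r : ℤ) (a : ℝ) : HasDerivAt (N r) (Q r a) a := by
  unfold N Q
  refine deriv_int (F := fun a s => -(Real.sin s * Real.sin (Th r a s)))
    (F' := fun a s => -(Real.sin s ^ 2 * Real.cos (Th r a s))) (B := 1) ?_ ?_ ?_ ?_ a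
  · exact fun a => (Real.continuous_sin.mul (Real.continuous_sin.comp (Th_cont r a))).neg
  · exact fun a => ((Real.continuous_sin.pow 2).mul (Real.continuous_cos.comp (Th_cont r a))).neg
  · intro a s
    rw [abs_neg, abs_mul, abs_pow]
    exact mul_le_one₀ (pow_le_one₀ (abs_nonneg _) (Real.abs_sin_le_one _)) (abs_nonneg _)
      (Real.abs_cos_le_one _)
  · intro a s
    have := ((Th_deriv_a r a s).sin.const_mul (Real.sin s)).neg
    refine this.congr_deriv ?_
    ring

lemma sin_Th_zero (r : ℤ) (a : ℝ) : Real.sin (Th r a 0) = 0 := by simp [Th]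
lemma sin_Th_pi (r : ℤ) (a : ℝ) : Real.sin (Th r a Real.pi) = 0 := by
  simp [Th, Real.sin_int_mul_pi]

/-- Bessel's equation -/
lemma bessel_eq (r : ℤ) (a : ℝ) : a ^ 2 * (Q r a + M r a) - r ^ 2 * M r a = -(a * N r a) := by
  have hc1 : Continuous fun s => Real.cos (Th r a s) := Real.continuous_cos.comp (Th_cont r a)
  have hc2 : Continuous fun s => Real.sin (Th r a s) := Real.continuous_sin.comp (Th_cont r a)
  have h1 : ∫ s in (0:ℝ)..Real.pi, ((-(a * Real.sin s)) * Real.sin (Th r a s) +
      (a * Real.cos s - r) * (Real.cos (Th r a s) * (r + a * Real.cos s))) = 0 := by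
    have h2 := intervalIntegral.integral_eq_sub_of_hasDerivAt
      (f := fun s => (a * Real.cos s - r) * Real.sin (Th r a s))
      (f' := fun s => ((-(a * Real.sin s)) * Real.sin (Th r a s) +
      (a * Real.cos s - r) * (Real.cos (Th r a s) * (r + a * Real.cos s)))) (a := 0) (b := Real.pi)
      (fun s _ => by
        have h3 := (((Real.hasDerivAt_cos s).const_mul a).sub_const (r:ℝ)).mul
          (Th_deriv r a s).sin
        refine h3.congr_deriv ?_
        ring) (by
        apply Continuous.intervalIntegrable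
        fun_prop)
    rw [h2]
    simp only [sin_Th_zero, sin_Th_pi, mul_zero, sub_zero]
  have e1 : M r a = ∫ s in (0:ℝ)..Real.pi, Real.cos (Th r a s) := rfl
  have e2 : N r a = ∫ s in (0:ℝ)..Real.pi, -(Real.sin s * Real.sin (Th r a s)) := rfl
  have e3 : Q r a = ∫ s in (0:ℝ)..Real.pi, -(Real.sin s ^ 2 * Real.cos (Th r a s)) := rfl
  have i1 : IntervalIntegrable (fun s => Real.cos (Th r a s)) volume 0 Real.pi :=
    hc1.intervalIntegrable _ _
  have i2 : IntervalIntegrable (fun s => -(Real.sin s * Real.sin (Th r a s))) volume 0 Real.pi :=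
    (Real.continuous_sin.mul hc2).neg.intervalIntegrable _ _
  have i3 : IntervalIntegrable (fun s => -(Real.sin s ^ 2 * Real.cos (Th r a s))) volume 0
      Real.pi := ((Real.continuous_sin.pow 2).mul hc1).neg.intervalIntegrable _ _
  have h4 : ∫ s in (0:ℝ)..Real.pi, ((-(a * Real.sin s)) * Real.sin (Th r a s) +
      (a * Real.cos s - r) * (Real.cos (Th r a s) * (r + a * Real.cos s))) =
      a * N r a + (a ^ 2 * (Q r a + M r a) - r ^ 2 * M r a) := by
    rw [e1, e2, e3, ← intervalIntegral.integral_const_mul, ← intervalIntegral.integral_add i3 i1,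
      ← intervalIntegral.integral_const_mul, ← intervalIntegral.integral_const_mul,
      ← intervalIntegral.integral_sub ((i3.add i1).const_mul _) (i1.const_mul _),
      ← intervalIntegral.integral_add (i2.const_mul _)
        (((i3.add i1).const_mul _).sub (i1.const_mul _))]
    refine intervalIntegral.integral_congr fun s _ => ?_
    have h5 := Real.sin_sq_add_cos_sq s
    have h6 : Real.sin s ^ 2 = 1 - Real.cos s ^ 2 := by linarith
    rw [h6]; ring
  rw [h4] at h1
  linarith

lemma rec_sum (r : ℤ) (a : ℝ) : 2 * r * M r a + a * (M (r + 1) a + M (r - 1) a) = 0 := by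
  have h1 : ∫ s in (0:ℝ)..Real.pi, (Real.cos (Th r a s) * (r + a * Real.cos s)) = 0 := by
    have h2 := intervalIntegral.integral_eq_sub_of_hasDerivAt
      (f := fun s => Real.sin (Th r a s))
      (f' := fun s => (Real.cos (Th r a s) * (r + a * Real.cos s))) (a := 0) (b := Real.pi)
      (fun s _ => (Th_deriv r a s).sin) (by
        apply Continuous.intervalIntegrable
        have := Th_cont r a
        fun_prop)
    rw [h2]
    simp only [sin_Th_zero, sin_Th_pi, sub_zero]
  have i : ∀ k : ℤ, IntervalIntegrable (fun s => Real.cos (Th k a s)) volume 0 Real.pi :=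
    fun k => (Real.continuous_cos.comp (Th_cont k a)).intervalIntegrable _ _
  have h3 : 2 * r * M r a + a * (M (r + 1) a + M (r - 1) a) =
      2 * ∫ s in (0:ℝ)..Real.pi, (Real.cos (Th r a s) * (r + a * Real.cos s)) := by
    unfold M
    rw [← intervalIntegral.integral_add (i _) (i _), ← intervalIntegral.integral_const_mul,
      ← intervalIntegral.integral_const_mul, ← intervalIntegral.integral_const_mul,
      ← intervalIntegral.integral_add ((i _).const_mul _) (((i _).add (i _)).const_mul _)]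
    refine intervalIntegral.integral_congr fun s _ => ?_
    have e1 : Th (r + 1) a s = Th r a s + s := by unfold Th; push_cast; ring
    have e2 : Th (r - 1) a s = Th r a s - s := by unfold Th; push_cast; ring
    rw [e1, e2, Real.cos_add, Real.cos_sub]
    ring
  rw [h3, h1, mul_zero]

lemma rec_diff (r : ℤ) (a : ℝ) : 2 * N r a = M (r + 1) a - M (r - 1) a := by
  have i : ∀ k : ℤ, IntervalIntegrable (fun s => Real.cos (Th k a s)) volume 0 Real.pi :=
    fun k => (Real.continuous_cos.comp (Th_cont k a)).intervalIntegrable _ _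
  unfold M N
  rw [← intervalIntegral.integral_sub (i _) (i _), ← intervalIntegral.integral_const_mul]
  refine intervalIntegral.integral_congr fun s _ => ?_
  have e1 : Th (r + 1) a s = Th r a s + s := by unfold Th; push_cast; ring
  have e2 : Th (r - 1) a s = Th r a s - s := by unfold Th; push_cast; ring
  rw [e1, e2, Real.cos_add, Real.cos_sub]
  ring

/-- The integral does not vanish identically. -/
lemma M_ne (r : ℕ) : ∃ a, 0 < a ∧ M r a ≠ 0 := by
  induction r with
  | zero =>
    by_contra hcon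
    push Not at hcon
    have h1 : Continuous (M (0:ℤ)) :=
      continuous_iff_continuousAt.2 fun a => (M_deriv 0 a).continuousAt
    have h2 : Tendsto (M (0:ℤ)) (𝓝[>] 0) (𝓝 (M 0 0)) := h1.continuousAt.tendsto.mono_left
      nhdsWithin_le_nhds
    have h3 : Tendsto (M (0:ℤ)) (𝓝[>] 0) (𝓝 0) := by
      refine tendsto_const_nhds.congr' ?_
      filter_upwards [self_mem_nhdsWithin] with a ha
      have := hcon a ha
      simpa using this.symm
    have h4 := tendsto_nhds_unique h2 h3
    have h5 : M 0 0 = Real.pi := by simp [M, Th]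
    rw [h5] at h4
    exact Real.pi_ne_zero h4
  | succ n ih =>
    by_contra hcon
    push Not at hcon
    obtain ⟨a, ha, hne⟩ := ih
    apply hne
    have h1 : M ((n + 1 : ℕ) : ℤ) a = 0 := hcon a ha
    have h2 : N ((n + 1 : ℕ) : ℤ) a = 0 := by
      have h3 := M_deriv ((n + 1 : ℕ) : ℤ) a
      have h4 : HasDerivAt (M ((n + 1 : ℕ) : ℤ)) 0 a := by
        refine (hasDerivAt_const a (0:ℝ)).congr_of_eventuallyEq ?_
        filter_upwards [lt_mem_nhds ha] with x hx
        exact hcon x hx
      exact h3.unique h4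
    have h5 := rec_sum ((n + 1 : ℕ) : ℤ) a
    have h6 := rec_diff ((n + 1 : ℕ) : ℤ) a
    rw [h1] at h5
    rw [h2] at h6
    have e : (((n + 1 : ℕ) : ℤ) - 1) = (n : ℤ) := by push_cast; ring
    rw [e] at h5 h6
    have h7 : a * (M (((n + 1 : ℕ) : ℤ) + 1) a + M n a) = 0 := by linarith
    have h8 := (mul_eq_zero.1 h7).resolve_left ha.ne'
    linarith

lemma abs_int_le {f : ℝ → ℝ} (h : ∀ s, |f s| ≤ 1) : |∫ s in (0:ℝ)..Real.pi, f s| ≤ Real.pi := by
  have := intervalIntegral.norm_integral_le_of_norm_le_const (a := 0) (b := Real.pi) (f := f)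
    (C := 1) (fun s _ => by rw [Real.norm_eq_abs]; exact h s)
  rw [Real.norm_eq_abs, sub_zero, abs_of_pos Real.pi_pos, one_mul] at this
  exact this

lemma M_abs (r : ℤ) (a : ℝ) : |M r a| ≤ Real.pi := abs_int_le fun _ => Real.abs_cos_le_one _

lemma N_abs (r : ℤ) (a : ℝ) : |N r a| ≤ Real.pi := abs_int_le fun s => by
  rw [abs_neg, abs_mul]
  exact mul_le_one₀ (Real.abs_sin_le_one _) (abs_nonneg _) (Real.abs_sin_le_one _)

lemma Q_eq (r : ℤ) {a : ℝ} (ha : 0 < a) :
    Q r a = -M r a - N r a / a + r ^ 2 * M r a / a ^ 2 := by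
  have h := bessel_eq r a
  field_simp
  linarith

/-- the energy `M² + N²` does not vanish to the right of a point where it does not vanish -/
lemma energy_pos (r : ℤ) {a0 : ℝ} (ha0 : 0 < a0) (h0 : M r a0 ≠ 0) {a : ℝ} (ha : a0 ≤ a) :
    0 < M r a ^ 2 + N r a ^ 2 := by
  set C : ℝ := 2 / a0 + r ^ 2 / a0 ^ 2 with hC
  have hC0 : 0 ≤ C := by positivity
  have hd : ∀ x, HasDerivAt (fun x => (M r x ^ 2 + N r x ^ 2) * Real.exp (C * x))
      ((2 * M r x * N r x + 2 * N r x * Q r x) * Real.exp (C * x) +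
        (M r x ^ 2 + N r x ^ 2) * (Real.exp (C * x) * C)) x := by
    intro x
    have h1 := ((M_deriv r x).pow 2).add ((N_deriv r x).pow 2)
    have h2 : HasDerivAt (fun x => Real.exp (C * x)) (Real.exp (C * x) * C) x := by
      have := ((hasDerivAt_id x).const_mul C).exp
      simpa using this
    refine (h1.mul h2).congr_deriv ?_
    simp only [Pi.add_apply, Pi.pow_apply]
    ring
  have hmono : MonotoneOn (fun x => (M r x ^ 2 + N r x ^ 2) * Real.exp (C * x)) (Ici a0) := by
    refine monotoneOn_of_deriv_nonneg (convex_Ici a0)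
      (fun x _ => (hd x).continuousAt.continuousWithinAt)
      (fun x _ => (hd x).differentiableAt.differentiableWithinAt) ?_
    intro x hx
    rw [interior_Ici] at hx
    have hx : a0 < x := hx
    rw [(hd x).deriv]
    have hxp : 0 < x := ha0.trans hx
    have hQ := Q_eq r hxp
    have he := Real.exp_pos (C * x)
    have key : 0 ≤ (2 * M r x * N r x + 2 * N r x * Q r x) + (M r x ^ 2 + N r x ^ 2) * C := by
      rw [hQ]
      have e1 : 2 * M r x * N r x + 2 * N r x * (-M r x - N r x / x + r ^ 2 * M r x / x ^ 2) =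
          -(2 / x) * N r x ^ 2 + (r ^ 2 / x ^ 2) * (2 * M r x * N r x) := by
        field_simp
        ring
      rw [e1]
      have b1 : 2 / x ≤ 2 / a0 := div_le_div_of_nonneg_left (by norm_num) ha0 hx.le
      have b2 : (r:ℝ) ^ 2 / x ^ 2 ≤ r ^ 2 / a0 ^ 2 :=
        div_le_div_of_nonneg_left (by positivity) (by positivity)
          (pow_le_pow_left₀ ha0.le hx.le 2)
      have b3 : |2 * M r x * N r x| ≤ M r x ^ 2 + N r x ^ 2 := by
        rw [abs_le]
        constructor <;> nlinarith [sq_nonneg (M r x + N r x), sq_nonneg (M r x - N r x)]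
      have b4 : 0 ≤ (r:ℝ) ^ 2 / x ^ 2 := by positivity
      have b5 := (abs_le.1 b3).1
      have b6 : (r:ℝ) ^ 2 / x ^ 2 * (-(M r x ^ 2 + N r x ^ 2)) ≤
          (r:ℝ) ^ 2 / x ^ 2 * (2 * M r x * N r x) := mul_le_mul_of_nonneg_left b5 b4
      have b7 : (r:ℝ) ^ 2 / x ^ 2 * (M r x ^ 2 + N r x ^ 2) ≤
          (r:ℝ) ^ 2 / a0 ^ 2 * (M r x ^ 2 + N r x ^ 2) :=
        mul_le_mul_of_nonneg_right b2 (by positivity)
      have b8 : 2 / x * N r x ^ 2 ≤ 2 / a0 * (M r x ^ 2 + N r x ^ 2) :=
        mul_le_mul b1 (by nlinarith [sq_nonneg (M r x)]) (sq_nonneg _) (by positivity)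
      rw [hC]
      nlinarith
    nlinarith [mul_nonneg key he.le]
  have h1 := hmono (mem_Ici.2 le_rfl) (mem_Ici.2 ha) ha
  simp only at h1
  have h2 : 0 < (M r a0 ^ 2 + N r a0 ^ 2) * Real.exp (C * a0) := by positivity
  have h3 := lt_of_lt_of_le h2 h1
  exact (pos_iff_pos_of_mul_pos h3).2 (Real.exp_pos _)

/-- lower bound of the energy -/
lemma energy_low (r : ℕ) : ∃ c A0 : ℝ, 0 < c ∧ 1 ≤ A0 ∧ ∀ a, A0 ≤ a →
    c / a ≤ M r a ^ 2 + N r a ^ 2 := by
  obtain ⟨a1, ha1, hne⟩ := M_ne r
  set a0 := max a1 1 with ha0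
  have ha01 : 1 ≤ a0 := le_max_right _ _
  have hpos : ∀ a, a0 ≤ a → 0 < M r a ^ 2 + N r a ^ 2 := fun a ha =>
    energy_pos r ha1 hne ((le_max_left _ _).trans ha)
  set K : ℝ := 2 * r ^ 2 + 1 with hK
  set E : ℝ → ℝ := fun x => x * (M r x ^ 2 + N r x ^ 2) + M r x * N r x with hE
  have hd : ∀ x, HasDerivAt (fun x => E x * Real.exp (-(2 * K) / x))
      (((M r x ^ 2 + N r x ^ 2) + x * (2 * M r x * N r x + 2 * N r x * Q r x) +
        (N r x * N r x + M r x * Q r x)) * Real.exp (-(2 * K) / x) +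
        E x * (Real.exp (-(2 * K) / x) * (2 * K / x ^ 2))) x ∨ x = 0 := by
    intro x
    by_cases hx : x = 0
    · exact Or.inr hx
    left
    have h1 := ((M_deriv r x).pow 2).add ((N_deriv r x).pow 2)
    have h2 := ((hasDerivAt_id x).mul h1).add ((M_deriv r x).mul (N_deriv r x))
    have h3 : HasDerivAt (fun x => Real.exp (-(2 * K) / x))
        (Real.exp (-(2 * K) / x) * (2 * K / x ^ 2)) x := by
      have h4 := ((hasDerivAt_inv hx).const_mul (-(2 * K))).exp
      refine (h4.congr_deriv ?_).congr_of_eventuallyEq (Eventually.of_forall fun y => ?_)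
      · rw [div_eq_mul_inv]; field_simp
      · simp only [div_eq_mul_inv]
    refine (h2.mul h3).congr_deriv ?_
    simp only [hE, Pi.add_apply, Pi.pow_apply, Pi.mul_apply, id]
    ring
  have hlow : ∀ x, 1 ≤ x → x / 2 * (M r x ^ 2 + N r x ^ 2) ≤ E x := by
    intro x hx
    simp only [hE]
    have b3 : -(M r x ^ 2 + N r x ^ 2) / 2 ≤ M r x * N r x := by
      nlinarith [sq_nonneg (M r x + N r x), sq_nonneg (M r x - N r x)]
    nlinarith [sq_nonneg (M r x), sq_nonneg (N r x)]
  have hup : ∀ x, 1 ≤ x → E x ≤ 2 * x * (M r x ^ 2 + N r x ^ 2) := by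
    intro x hx
    simp only [hE]
    have b3 : M r x * N r x ≤ (M r x ^ 2 + N r x ^ 2) / 2 := by
      nlinarith [sq_nonneg (M r x + N r x), sq_nonneg (M r x - N r x)]
    nlinarith [sq_nonneg (M r x), sq_nonneg (N r x)]
  have hmono : MonotoneOn (fun x => E x * Real.exp (-(2 * K) / x)) (Ici 1) := by
    have hd' : ∀ x, 1 ≤ x → HasDerivAt (fun x => E x * Real.exp (-(2 * K) / x))
      (((M r x ^ 2 + N r x ^ 2) + x * (2 * M r x * N r x + 2 * N r x * Q r x) +
        (N r x * N r x + M r x * Q r x)) * Real.exp (-(2 * K) / x) +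
        E x * (Real.exp (-(2 * K) / x) * (2 * K / x ^ 2))) x := fun x hx =>
      (hd x).resolve_right (by linarith)
    refine monotoneOn_of_deriv_nonneg (convex_Ici 1)
      (fun x hx => (hd' x hx).continuousAt.continuousWithinAt)
      (fun x hx => (hd' x (interior_subset hx)).differentiableAt.differentiableWithinAt) ?_
    intro x hx
    have hx : 1 ≤ x := interior_subset hx
    rw [(hd' x hx).deriv]
    have hxp : 0 < x := by linarith
    have hQ := Q_eq r hxp
    have he := Real.exp_pos (-(2 * K) / x)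
    have key : 0 ≤ ((M r x ^ 2 + N r x ^ 2) + x * (2 * M r x * N r x + 2 * N r x * Q r x) +
        (N r x * N r x + M r x * Q r x)) + E x * (2 * K / x ^ 2) := by
      rw [hQ]
      have e1 : (M r x ^ 2 + N r x ^ 2) + x * (2 * M r x * N r x + 2 * N r x *
          (-M r x - N r x / x + (r:ℤ) ^ 2 * M r x / x ^ 2)) +
        (N r x * N r x + M r x * (-M r x - N r x / x + (r:ℤ) ^ 2 * M r x / x ^ 2)) =
          ((2 * (r:ℝ) ^ 2 - 1) * (M r x * N r x)) / x + (r:ℝ) ^ 2 * M r x ^ 2 / x ^ 2 := by
        push_cast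
        field_simp
        ring
      rw [e1]
      have b1 : 0 ≤ (r:ℝ) ^ 2 * M r x ^ 2 / x ^ 2 := by positivity
      have b2 : -(K * (M r x ^ 2 + N r x ^ 2)) / x ≤ ((2 * (r:ℝ) ^ 2 - 1) * (M r x * N r x)) / x := by
        apply div_le_div_of_nonneg_right _ hxp.le
        have c1 : |M r x * N r x| ≤ M r x ^ 2 + N r x ^ 2 := by
          rw [abs_le]
          constructor <;> nlinarith [sq_nonneg (M r x + N r x), sq_nonneg (M r x - N r x)]
        have c2 : |(2 * (r:ℝ) ^ 2 - 1) * (M r x * N r x)| ≤ K * (M r x ^ 2 + N r x ^ 2) := by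
          rw [abs_mul]
          refine mul_le_mul ?_ c1 (abs_nonneg _) (by positivity)
          rw [hK, abs_le]
          constructor <;> nlinarith [sq_nonneg (r:ℝ)]
        linarith [(abs_le.1 c2).1]
      have b3 : (x / 2 * (M r x ^ 2 + N r x ^ 2)) * (2 * K / x ^ 2) ≤ E x * (2 * K / x ^ 2) :=
        mul_le_mul_of_nonneg_right (hlow x hx) (by positivity)
      have b4 : (x / 2 * (M r x ^ 2 + N r x ^ 2)) * (2 * K / x ^ 2) =
          (K * (M r x ^ 2 + N r x ^ 2)) / x := by
        field_simp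
      rw [b4] at b3
      have b5 : -(K * (M r x ^ 2 + N r x ^ 2)) / x = -((K * (M r x ^ 2 + N r x ^ 2)) / x) := by
        ring
      rw [b5] at b2
      linarith
    nlinarith [mul_nonneg key he.le]
  have hK0 : 0 ≤ K := by positivity
  set e0 : ℝ := E a0 * Real.exp (-(2 * K) / a0) with he0
  have he0p : 0 < e0 := by
    have h1 := hlow a0 ha01
    have h2 := hpos a0 le_rfl
    have h3 : 0 < E a0 := lt_of_lt_of_le (by positivity) h1
    positivity
  refine ⟨e0 / 2, a0, by positivity, ha01, fun a ha => ?_⟩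
  have ha1' : 1 ≤ a := ha01.trans ha
  have h1 := hmono (mem_Ici.2 ha01) (mem_Ici.2 ha1') ha
  simp only at h1
  rw [← he0] at h1
  have h2 : Real.exp (-(2 * K) / a) ≤ 1 := by
    apply Real.exp_le_one_iff.2
    rw [neg_div]
    have : 0 ≤ 2 * K / a := by positivity
    linarith
  have h3 : 0 ≤ E a := le_trans (by positivity) (hlow a ha1')
  have h4 : e0 ≤ E a := h1.trans (mul_le_of_le_one_right h3 h2)
  have h5 := hup a ha1'
  rw [div_le_iff₀ (by linarith)]
  nlinarith

/-- half-period shift -/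
lemma shift_pi (r : ℤ) {a : ℝ} (ha : 1 ≤ a) :
    |M r (a + Real.pi) + M r a| ≤ 2 * Real.pi ^ 2 * (1 + r ^ 2) / a ∧
    |M r (a + Real.pi / 2) - N r a| ≤ 2 * Real.pi ^ 2 * (1 + r ^ 2) / a := by
  have hpi := Real.pi_pos
  have hbound : ∀ x, 0 ≤ x → |Q r (a + x) + M r (a + x)| ≤ 2 * Real.pi * (1 + r ^ 2) / a := by
    intro x hx
    have hxp : 0 < a + x := by linarith
    rw [Q_eq r hxp]
    have e : -M r (a + x) - N r (a + x) / (a + x) + r ^ 2 * M r (a + x) / (a + x) ^ 2 +
        M r (a + x) = -(N r (a + x) / (a + x)) + r ^ 2 * M r (a + x) / (a + x) ^ 2 := by ring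
    rw [e]
    have h1 : |-(N r (a + x) / (a + x))| ≤ Real.pi / a := by
      rw [abs_neg, abs_div, abs_of_pos hxp]
      exact div_le_div₀ hpi.le (N_abs r _) (by linarith) (by linarith)
    have h2 : |(r:ℝ) ^ 2 * M r (a + x) / (a + x) ^ 2| ≤ r ^ 2 * Real.pi / a := by
      rw [abs_div, abs_mul, abs_of_nonneg (sq_nonneg (r:ℝ)), abs_of_pos (by positivity : 0 < (a + x) ^ 2)]
      refine div_le_div₀ (by positivity)
        (mul_le_mul_of_nonneg_left (M_abs r _) (sq_nonneg _)) (by linarith) ?_
      nlinarith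
    have h3 := (abs_add_le (-(N r (a + x) / (a + x))) (r ^ 2 * M r (a + x) / (a + x) ^ 2)).trans
      (add_le_add h1 h2)
    refine h3.trans ?_
    rw [← add_div]
    apply div_le_div_of_nonneg_right _ (by linarith)
    nlinarith [sq_nonneg (r:ℝ)]
  have hsh : ∀ x, HasDerivAt (fun x => M r (a + x)) (N r (a + x)) x ∧
      HasDerivAt (fun x => N r (a + x)) (Q r (a + x)) x := by
    intro x
    exact ⟨(M_deriv r (a + x)).comp_const_add a x, (N_deriv r (a + x)).comp_const_add a x⟩
  constructor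
  · have hd : ∀ x ∈ Icc 0 Real.pi, HasDerivWithinAt
        (fun x => M r (a + x) * Real.cos x - N r (a + x) * Real.sin x)
        (-((Q r (a + x) + M r (a + x)) * Real.sin x)) (Icc 0 Real.pi) x := by
      intro x _
      refine HasDerivAt.hasDerivWithinAt ?_
      have := ((hsh x).1.mul (Real.hasDerivAt_cos x)).sub ((hsh x).2.mul (Real.hasDerivAt_sin x))
      refine this.congr_deriv ?_
      ring
    have h1 := Convex.norm_image_sub_le_of_norm_hasDerivWithin_le
      (C := 2 * Real.pi * (1 + r ^ 2) / a) hd (fun x hx => by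
        rw [norm_neg, Real.norm_eq_abs, abs_mul]
        exact (mul_le_mul (hbound x hx.1) (Real.abs_sin_le_one x) (abs_nonneg _)
          (by positivity)).trans (by rw [mul_one])) (convex_Icc _ _)
      (left_mem_Icc.2 hpi.le) (right_mem_Icc.2 hpi.le)
    simp only [Real.cos_pi, Real.sin_pi, mul_zero, sub_zero, add_zero, Real.cos_zero, mul_one,
      Real.sin_zero, Real.norm_eq_abs, mul_neg] at h1
    rw [abs_of_pos hpi] at h1
    rw [show -M r (a + Real.pi) - M r a = -(M r (a + Real.pi) + M r a) by ring, abs_neg] at h1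
    refine h1.trans (le_of_eq ?_)
    ring
  · have hd : ∀ x ∈ Icc 0 (Real.pi / 2), HasDerivWithinAt
        (fun x => M r (a + x) * Real.sin x + N r (a + x) * Real.cos x)
        ((Q r (a + x) + M r (a + x)) * Real.cos x) (Icc 0 (Real.pi / 2)) x := by
      intro x _
      refine HasDerivAt.hasDerivWithinAt ?_
      have := ((hsh x).1.mul (Real.hasDerivAt_sin x)).add ((hsh x).2.mul (Real.hasDerivAt_cos x))
      refine this.congr_deriv ?_
      ring
    have h1 := Convex.norm_image_sub_le_of_norm_hasDerivWithin_le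
      (C := 2 * Real.pi * (1 + r ^ 2) / a) hd (fun x hx => by
        rw [Real.norm_eq_abs, abs_mul]
        exact (mul_le_mul (hbound x hx.1) (Real.abs_cos_le_one x) (abs_nonneg _)
          (by positivity)).trans (by rw [mul_one])) (convex_Icc _ _)
      (left_mem_Icc.2 (by positivity)) (right_mem_Icc.2 (by positivity))
    simp only [Real.cos_pi_div_two, Real.sin_pi_div_two, mul_zero, sub_zero, add_zero,
      Real.cos_zero, mul_one, Real.sin_zero, Real.norm_eq_abs, zero_add] at h1
    rw [abs_of_pos (by positivity : 0 < Real.pi / 2)] at h1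
    refine h1.trans ?_
    rw [div_mul_eq_mul_div]
    apply div_le_div_of_nonneg_right _ (by linarith)
    nlinarith [sq_nonneg (r:ℝ), mul_pos hpi hpi]

/-- `M` takes values of size `a^(-1/2)` of both signs at arbitrarily large `a`. -/
theorem oscillation (r : ℕ) : ∃ c : ℝ, 0 < c ∧ ∀ A : ℝ, (∃ a, A ≤ a ∧ c / √a ≤ M r a) ∧
    ∃ a, A ≤ a ∧ M r a ≤ -(c / √a) := by
  obtain ⟨c, A0, hc, hA0, hlow⟩ := energy_low r
  set K : ℝ := 2 * Real.pi ^ 2 * (1 + (r:ℤ) ^ 2) with hK
  have hK0 : 0 < K := by positivity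
  set d : ℝ := √(c / 2) with hd
  have hd0 : 0 < d := Real.sqrt_pos.2 (by positivity)
  have hpi := Real.pi_pos
  -- for large a, K/a ≤ d/(4 √a)
  have hbig : ∀ a : ℝ, 1 ≤ a → (4 * K / d) ^ 2 ≤ a → K / a ≤ d / √a / 4 := by
    intro a ha1 ha
    have h1 : 4 * K / d ≤ √a := Real.le_sqrt_of_sq_le ha
    have h2 : 0 < √a := Real.sqrt_pos.2 (by linarith)
    have h3 : √a * √a = a := Real.mul_self_sqrt (by linarith)
    rw [div_le_iff₀ hd0] at h1
    rw [div_div, div_le_div_iff₀ (by linarith) (by positivity)]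
    nlinarith
  have hsq : ∀ a b : ℝ, 0 < a → a ≤ b → d / √b ≤ d / √a := by
    intro a b h1 h2
    exact div_le_div_of_nonneg_left hd0.le (Real.sqrt_pos.2 h1) (Real.sqrt_le_sqrt h2)
  refine ⟨d / 4, by positivity, fun A => ?_⟩
  -- a point with |M| large
  obtain ⟨a, haA, ha1, haK, hMa⟩ : ∃ a, A ≤ a ∧ 1 ≤ a ∧ (4 * K / d) ^ 2 ≤ a ∧
      3 / 4 * (d / √a) ≤ |M r a| := by
    set a := max (max A A0) ((4 * K / d) ^ 2) with ha
    have h1 : A ≤ a := (le_max_left _ _).trans (le_max_left _ _)
    have h2 : A0 ≤ a := (le_max_right _ _).trans (le_max_left _ _)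
    have h3 : (4 * K / d) ^ 2 ≤ a := le_max_right _ _
    have h4 : 1 ≤ a := hA0.trans h2
    have hap : 0 < a := by linarith
    have hsa : 0 < √a := Real.sqrt_pos.2 hap
    have h5 := hlow a h2
    have hda : (d / √a) ^ 2 = c / 2 / a := by
      rw [div_pow, Real.sq_sqrt hap.le, hd, Real.sq_sqrt (by positivity)]
    rcases le_or_gt (d / √a) |M r a| with h6 | h6
    · refine ⟨a, h1, h4, h3, ?_⟩
      have : 0 < d / √a := by positivity
      linarith
    · have h7 : d / √a ≤ |N r a| := by
        by_contra hcon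
        push Not at hcon
        have h8 : M r a ^ 2 < (d / √a) ^ 2 := by
          rw [← sq_abs]; exact pow_lt_pow_left₀ h6 (abs_nonneg _) two_ne_zero
        have h9 : N r a ^ 2 < (d / √a) ^ 2 := by
          rw [← sq_abs (N r a)]; exact pow_lt_pow_left₀ hcon (abs_nonneg _) two_ne_zero
        rw [hda] at h8 h9
        have : c / a = c / 2 / a + c / 2 / a := by ring
        linarith
      refine ⟨a + Real.pi / 2, by linarith, by linarith, by linarith, ?_⟩
      have h8 := (shift_pi r h4).2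
      rw [← hK] at h8
      have h9 := hbig a h4 h3
      have h10 := hsq a (a + Real.pi / 2) hap (by linarith)
      have h11 : |N r a| ≤ |M r (a + Real.pi / 2)| + |M r (a + Real.pi / 2) - N r a| := by
        have := abs_sub_abs_le_abs_sub (N r a) (M r (a + Real.pi / 2))
        rw [abs_sub_comm] at this
        linarith
      linarith
  have hap : 0 < a := by linarith
  have hsa : 0 < √a := Real.sqrt_pos.2 hap
  have hda : 0 < d / √a := by positivity
  have h1 := (shift_pi r ha1).1
  rw [← hK] at h1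
  have h2 := hbig a ha1 haK
  have h3 := hsq a (a + Real.pi) hap (by linarith)
  have e1 : ∀ x : ℝ, d / 4 / √x = d / √x / 4 := fun x => by ring
  have h4 := abs_le.1 h1
  rcases le_or_gt 0 (M r a) with h5 | h5
  · rw [abs_of_nonneg h5] at hMa
    refine ⟨⟨a, haA, ?_⟩, a + Real.pi, by linarith, ?_⟩
    · rw [e1]; linarith
    · rw [e1]; linarith [h4.2]
  · rw [abs_of_neg h5] at hMa
    refine ⟨⟨a + Real.pi, by linarith, ?_⟩, a, haA, ?_⟩
    · rw [e1]; linarith [h4.1]
    · rw [e1]; linarith

end Pool.Agent.Q180.PL
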