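import Mathlib

set_option autoImplicit false
open Set Filter Topology

/-!
# Enumeration of a locally finite set; regions between two graphs
-/

namespace Pool.Agent.Q180.PL

/-- Enumeration of the positive elements of a closed set, discrete in `(0,∞)`, unbounded above and
bounded away from `0`. -/
theorem enum {T : Set ℝ} (hT : IsClosed T) {δ : ℝ} (hδ : 0 < δ) (hlow : ∀ a ∈ T, 0 < a → δ ≤ a)
    (hiso : ∀ a ∈ T, 0 < a → ∀ᶠ a' in 𝓝[≠] a, a' ∉ T) (hinf : ∀ A, ∃ a, A ≤ a ∧ 0 < a ∧ a ∈ T) :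
    ∃ s : ℕ → ℝ, StrictMono s ∧ 0 < s 0 ∧ Tendsto s atTop atTop ∧
      ∀ a, 0 < a → (a ∈ T ↔ a ∈ range s) := by
  have hfin : ∀ A, (T ∩ Icc δ A).Finite := by
    intro A
    by_contra hcon
    obtain ⟨x, hx, hacc⟩ := Set.Infinite.exists_accPt_of_subset_isCompact
      (s := T ∩ Icc δ A) (K := Icc δ A) hcon isCompact_Icc inter_subset_right
    have hxT : x ∈ T := by
      have h1 : x ∈ closure (T ∩ Icc δ A) := mem_closure_iff_clusterPt.2 hacc.clusterPt
      exact (hT.closure_eq ▸ closure_mono inter_subset_left) h1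
    have hx0 : 0 < x := hδ.trans_le hx.1
    have h2 := hiso x hxT hx0
    rw [accPt_iff_frequently_nhdsNE] at hacc
    exact hacc (h2.mono fun y hy h => hy h.1)
  have hnext : ∀ x : ℝ, 0 ≤ x → ∃ y, x < y ∧ y ∈ T ∧ ∀ z ∈ T, x < z → y ≤ z := by
    intro x hx
    obtain ⟨A, hA1, hA2, hA3⟩ := hinf (x + 1)
    have hfin' : (T ∩ Icc δ A ∩ Ioi x).Finite := (hfin A).subset inter_subset_left
    have hne : (T ∩ Icc δ A ∩ Ioi x).Nonempty :=
      ⟨A, ⟨hA3, hlow A hA3 hA2, le_rfl⟩, by simp only [mem_Ioi]; linarith⟩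
    obtain ⟨y, hy, hmin⟩ := hfin'.exists_minimal hne
    have hmin' : ∀ z ∈ T ∩ Icc δ A ∩ Ioi x, y ≤ z := by
      intro z hz
      by_contra hc
      push Not at hc
      exact absurd (hmin hz hc.le) (not_le.2 hc)
    refine ⟨y, hy.2, hy.1.1, fun z hz hxz => ?_⟩
    rcases le_or_gt z A with h | h
    · exact hmin' z ⟨⟨hz, hlow z hz (hx.trans_lt hxz), h⟩, hxz⟩
    · exact hy.1.2.2.trans h.le
  choose! nx hnx1 hnx2 hnx3 using hnext
  have hnx0 : ∀ x, 0 ≤ x → 0 ≤ nx x := fun x hx => hx.trans (hnx1 x hx).le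
  set s : ℕ → ℝ := fun n => nx^[n + 1] 0 with hs
  have hs0 : ∀ n, 0 < s n := by
    intro n
    induction n with
    | zero => exact hnx1 0 le_rfl
    | succ n ih =>
      have : s (n + 1) = nx (s n) := Function.iterate_succ_apply' nx (n + 1) 0
      rw [this]
      exact ih.trans (hnx1 _ ih.le)
  have hsucc : ∀ n, s (n + 1) = nx (s n) := fun n => Function.iterate_succ_apply' nx (n + 1) 0
  have hsT : ∀ n, s n ∈ T := by
    intro n
    cases n with
    | zero => exact hnx2 0 le_rfl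
    | succ n => rw [hsucc]; exact hnx2 _ (hs0 n).le
  have hmono : StrictMono s := strictMono_nat_of_lt_succ fun n => by
    rw [hsucc]; exact hnx1 _ (hs0 n).le
  have hunb : ∀ A, ∃ n, A < s n := by
    intro A
    by_contra hcon
    push Not at hcon
    have h1 : range s ⊆ T ∩ Icc δ A := by
      rintro _ ⟨n, rfl⟩
      exact ⟨hsT n, hlow _ (hsT n) (hs0 n), hcon n⟩
    exact (infinite_range_of_injective hmono.injective) ((hfin A).subset h1)
  refine ⟨s, hmono, hs0 0, ?_, fun a ha => ⟨fun haT => ?_, ?_⟩⟩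
  · refine tendsto_atTop_atTop_of_monotone hmono.monotone fun A => ?_
    obtain ⟨n, hn⟩ := hunb A
    exact ⟨n, hn.le⟩
  · -- least `n` with `a ≤ s n`
    have hex : ∃ n, a ≤ s n := by
      obtain ⟨n, hn⟩ := hunb a
      exact ⟨n, hn.le⟩
    classical
    set n := Nat.find hex with hn
    have h1 : a ≤ s n := Nat.find_spec hex
    refine ⟨n, le_antisymm ?_ h1⟩
    rcases Nat.eq_zero_or_pos n with h0 | h0
    · rw [h0]
      exact hnx3 0 le_rfl a haT ha
    · obtain ⟨m, hm⟩ : ∃ m, n = m + 1 := ⟨n - 1, by omega⟩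
      have h2 : s m < a := by
        by_contra hc
        push Not at hc
        have := Nat.find_min' hex hc
        omega
      rw [hm, hsucc]
      exact hnx3 _ (hs0 m).le a haT h2
  · rintro ⟨n, rfl⟩
    exact hsT n

section region

variable {gm gp : ℝ → ℝ}

/-- the closed region between the graphs of `gm` and `gp` over the set of heights `J` -/
def Reg (gm gp : ℝ → ℝ) (J : Set ℝ) : Set (ℝ × ℝ) :=
  {p | gm p.2 ≤ p.1 ∧ p.1 ≤ gp p.2 ∧ p.2 ∈ J}

/-- the open region -/
def Reg' (gm gp : ℝ → ℝ) (J : Set ℝ) : Set (ℝ × ℝ) :=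
  {p | gm p.2 < p.1 ∧ p.1 < gp p.2 ∧ p.2 ∈ J}

lemma Reg_eq (hle : ∀ h, gm h ≤ gp h) (J : Set ℝ) : Reg gm gp J =
    (fun q : ℝ × ℝ => (gm q.1 + q.2 * (gp q.1 - gm q.1), q.1)) '' (J ×ˢ Icc 0 1) := by
  ext ⟨b, h⟩
  simp only [Reg, mem_ofPred_eq, mem_image, mem_prod, mem_Icc, Prod.mk.injEq, Prod.exists]
  constructor
  · rintro ⟨h1, h2, h3⟩
    rcases (hle h).lt_or_eq with h4 | h4
    · refine ⟨h, (b - gm h) / (gp h - gm h), ⟨h3, ?_, ?_⟩, ?_, rfl⟩
      · exact div_nonneg (by linarith) (by linarith)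
      · rw [div_le_one (by linarith)]; linarith
      · rw [div_mul_cancel₀ _ (by linarith)]; ring
    · refine ⟨h, 0, ⟨h3, le_rfl, zero_le_one⟩, ?_, rfl⟩
      rw [zero_mul, add_zero]; linarith
  · rintro ⟨h', t, ⟨h3, h4, h5⟩, rfl, rfl⟩
    have := hle h'
    refine ⟨?_, ?_, h3⟩
    · nlinarith
    · nlinarith

lemma Reg'_eq {J : Set ℝ} (hlt : ∀ h ∈ J, gm h < gp h) : Reg' gm gp J =
    (fun q : ℝ × ℝ => (gm q.1 + q.2 * (gp q.1 - gm q.1), q.1)) '' (J ×ˢ Ioo 0 1) := by
  ext ⟨b, h⟩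
  simp only [Reg', mem_ofPred_eq, mem_image, mem_prod, mem_Ioo, Prod.mk.injEq, Prod.exists]
  constructor
  · rintro ⟨h1, h2, h3⟩
    have h4 := hlt h h3
    refine ⟨h, (b - gm h) / (gp h - gm h), ⟨h3, ?_, ?_⟩, ?_, rfl⟩
    · exact div_pos (by linarith) (by linarith)
    · rw [div_lt_one (by linarith)]; linarith
    · rw [div_mul_cancel₀ _ (by linarith)]; ring
  · rintro ⟨h', t, ⟨h3, h4, h5⟩, rfl, rfl⟩
    have := hlt h' h3
    refine ⟨?_, ?_, h3⟩
    · nlinarith
    · nlinarith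

lemma Reg_connected (hm : Continuous gm) (hp : Continuous gp) (hle : ∀ h, gm h ≤ gp h) {J : Set ℝ}
    (hJ : IsConnected J) : IsConnected (Reg gm gp J) := by
  rw [Reg_eq hle]
  exact (hJ.prod isConnected_Icc_zero_one).image _ (by fun_prop)
where
  isConnected_Icc_zero_one : IsConnected (Icc (0:ℝ) 1) := isConnected_Icc zero_le_one

lemma Reg'_connected (hm : Continuous gm) (hp : Continuous gp) {J : Set ℝ}
    (hlt : ∀ h ∈ J, gm h < gp h) (hJ : IsConnected J) : IsConnected (Reg' gm gp J) := by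
  rw [Reg'_eq hlt]
  exact (hJ.prod (isConnected_Ioo zero_lt_one)).image _ (by fun_prop)

lemma Reg'_open (hm : Continuous gm) (hp : Continuous gp) {J : Set ℝ} (hJ : IsOpen J) :
    IsOpen (Reg' gm gp J) := by
  have h1 : IsOpen {p : ℝ × ℝ | gm p.2 < p.1} :=
    isOpen_lt (hm.comp continuous_snd) continuous_fst
  have h2 : IsOpen {p : ℝ × ℝ | p.1 < gp p.2} :=
    isOpen_lt continuous_fst (hp.comp continuous_snd)
  have h3 : IsOpen {p : ℝ × ℝ | p.2 ∈ J} := hJ.preimage continuous_snd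
  exact (h1.inter (h2.inter h3))

/-- the interior of a closed region over an interval -/
lemma Reg_interior (hm : Continuous gm) (hp : Continuous gp) {J J' : Set ℝ} (hJJ : interior J = J') :
    interior (Reg gm gp J) = Reg' gm gp J' := by
  subst hJJ
  apply Subset.antisymm
  · intro p hp0
    have hp1 : p ∈ Reg gm gp J := interior_subset hp0
    rw [mem_interior_iff_mem_nhds, Metric.mem_nhds_iff] at hp0
    obtain ⟨δ, hδ, hball⟩ := hp0
    have hin : ∀ x y : ℝ, |x - p.1| < δ → |y - p.2| < δ → (x, y) ∈ Reg gm gp J := by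
      intro x y hx hy
      apply hball
      rw [Metric.mem_ball, Prod.dist_eq, max_lt_iff, Real.dist_eq, Real.dist_eq]
      exact ⟨hx, hy⟩
    refine ⟨?_, ?_, ?_⟩
    · have h1 := (hin (p.1 - δ / 2) p.2 (by
        rw [show p.1 - δ / 2 - p.1 = -(δ / 2) by ring, abs_neg, abs_of_pos (by positivity)]
        linarith) (by simpa using hδ)).1
      simp only at h1
      linarith
    · have h1 := (hin (p.1 + δ / 2) p.2 (by
        rw [show p.1 + δ / 2 - p.1 = δ / 2 by ring, abs_of_pos (by positivity)]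
        linarith) (by simpa using hδ)).2.1
      simp only at h1
      linarith
    · rw [mem_interior_iff_mem_nhds, Metric.mem_nhds_iff]
      refine ⟨δ, hδ, fun y hy => ?_⟩
      exact (hin p.1 y (by simpa using hδ) hy).2.2
  · refine interior_maximal ?_ (Reg'_open hm hp isOpen_interior)
    rintro p ⟨h1, h2, h3⟩
    exact ⟨h1.le, h2.le, interior_subset h3⟩

/-- `Reg` over `J` is contained in the closure of `Reg'` over a dense open subset of `J` on which
`gm < gp`. -/
lemma Reg_subset_closure (hm : Continuous gm) (hp : Continuous gp) (hle : ∀ h, gm h ≤ gp h)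
    {J J' : Set ℝ} (hJ : J ⊆ closure J') (hlt : ∀ h ∈ J', gm h < gp h) :
    Reg gm gp J ⊆ closure (Reg' gm gp J') := by
  rw [Reg_eq hle, Reg'_eq hlt]
  have hc : Continuous (fun q : ℝ × ℝ => (gm q.1 + q.2 * (gp q.1 - gm q.1), q.1)) := by fun_prop
  refine Subset.trans ?_ (image_closure_subset_closure_image hc)
  apply image_mono
  rw [closure_prod_eq, closure_Ioo zero_ne_one]
  exact prod_mono hJ le_rfl

end region

end Pool.Agent.Q180.PL
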