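import Pool.Agent.Q180.PL.Strip
import Pool.Agent.Q180.PL.Garl

set_option autoImplicit false
open Set Filter Topology

/-!
# Phase-lock areas are garlands
-/

namespace Pool.Agent.Q180.PL
open H535R3

/-- the phase-lock area `L_r` of `dφ/dτ = (-sin φ + B + A cos τ)/ω`, in the plane of `(B, A)` -/
def Lock (ω : ℝ) (r : ℤ) : Set (ℝ × ℝ) :=
  {p | ∃ φ : ℝ → ℝ,
    (∀ τ : ℝ, HasDerivAt φ (1 / ω * (-Real.sin (φ τ) + p.1 + p.2 * Real.cos τ)) τ) ∧
    Tendsto (fun τ : ℝ => φ τ / τ) atTop (𝓝 (r : ℝ))}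

/-- `p` is an adjacency of `L_r`: `p ∈ L_r` lies off the abscissa axis and is the only point of `L_r` on
its horizontal line -/
def IsAdj (ω : ℝ) (r : ℤ) (p : ℝ × ℝ) : Prop :=
  p ∈ Lock ω r ∧ p.2 ≠ 0 ∧ ∀ q ∈ Lock ω r, q.2 = p.2 → q = p

variable {ω : ℝ}

noncomputable def Gm (ω : ℝ) (r : ℤ) (A : ℝ) : ℝ := ω * gm r (1 / ω) (A / ω)
noncomputable def Gp (ω : ℝ) (r : ℤ) (A : ℝ) : ℝ := ω * gp r (1 / ω) (A / ω)

lemma Gm_cont (hω : 0 < ω) (r : ℤ) : Continuous (Gm ω r) := by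
  unfold Gm
  have := gm_cont (ε := 1 / ω) (by positivity) r
  fun_prop

lemma Gp_cont (hω : 0 < ω) (r : ℤ) : Continuous (Gp ω r) := by
  unfold Gp
  have := gp_cont (ε := 1 / ω) (by positivity) r
  fun_prop

lemma Gm_le_Gp (hω : 0 < ω) (r : ℤ) (A : ℝ) : Gm ω r A ≤ Gp ω r A :=
  mul_le_mul_of_nonneg_left (gm_le_gp (by positivity) r _) hω.le

lemma mem_Lock (hω : 0 < ω) (r : ℤ) (B A : ℝ) :
    (B, A) ∈ Lock ω r ↔ Gm ω r A ≤ B ∧ B ≤ Gp ω r A := by
  have h1 := mem_torus hω r B A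
  have h2 : (B, A) ∈ Lock ω r ↔ (B / ω, A / ω) ∈ Ls r (1 / ω) := h1
  rw [h2, mem_iff (by positivity), Gm, Gp, le_div_iff₀ hω, div_le_iff₀ hω, mul_comm ω, mul_comm ω]

lemma Lock_bdd (hω : 0 < ω) (r : ℤ) {B A : ℝ} (h : (B, A) ∈ Lock ω r) : |B - r * ω| ≤ 1 := by
  have h1 := mem_torus hω r B A
  have h2 : (B / ω, A / ω) ∈ Ls r (1 / ω) := h1.1 h
  have h3 := slice_bdd (by positivity) h2
  have e : B - r * ω = (B / ω - r) * ω := by field_simp
  rw [e, abs_mul, abs_of_pos hω]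
  rwa [← le_div_iff₀ hω]

/-- the set of the positive heights of the adjacencies -/
theorem exists_heights (hω : 0 < ω) (r : ℤ) : ∃ s : ℕ → ℝ, StrictMono s ∧ 0 < s 0 ∧
    Tendsto s atTop atTop ∧ (∀ A, 0 < A → (Gm ω r A = Gp ω r A ↔ A ∈ range s)) ∧
    ∀ A, 0 < A → Gm ω r A = Gp ω r A → Gm ω r A = r * ω ∧ Gp ω r A = r * ω := by
  have hε : (0:ℝ) < 1 / ω := by positivity
  obtain ⟨δ, hδ, hlow⟩ := Sg_low hε r
  obtain ⟨s, h1, h2, h3, h4⟩ := enum (Sg_closed hε r) hδ (fun a ha h => hlow a h ha)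
    (fun a ha h => Sg_isolated hε h ha) (fun A => by
      obtain ⟨a, b1, b2, b3⟩ := Sg_large r hε A
      exact ⟨a, b1, b2, b3⟩)
  have hiff : ∀ A, Gm ω r A = Gp ω r A ↔ Sg r (1 / ω) (A / ω) := by
    intro A
    unfold Gm Gp Sg
    constructor
    · intro h
      exact mul_left_cancel₀ hω.ne' h
    · intro h
      rw [h]
  refine ⟨fun n => ω * s n, ?_, ?_, ?_, ?_, ?_⟩
  · intro m n hmn
    exact mul_lt_mul_of_pos_left (h1 hmn) hω
  · exact mul_pos hω h2
  · exact h3.const_mul_atTop hω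
  · intro A hA
    rw [hiff]
    have h5 := h4 (A / ω) (by positivity)
    rw [show Sg r (1 / ω) (A / ω) ↔ A / ω ∈ {a | Sg r (1 / ω) a} from Iff.rfl, h5]
    constructor
    · rintro ⟨n, hn⟩
      refine ⟨n, ?_⟩
      simp only
      rw [hn]
      field_simp
    · rintro ⟨n, hn⟩
      refine ⟨n, ?_⟩
      simp only at hn
      rw [← hn]
      field_simp
  · intro A hA h
    have h5 := Sg_axis hε (by positivity : 0 < A / ω) ((hiff A).1 h)
    unfold Gm Gp
    rw [h5.1, h5.2]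
    exact ⟨mul_comm _ _, mul_comm _ _⟩

/-- the vertical line `B = rω` above an adjacency lies in `L_r`, in the interior apart from the
adjacencies -/
lemma axis_between (hω : 0 < ω) (r : ℤ) {A A' : ℝ} (hA : 0 < A) (hAA : A < A')
    (h : Gm ω r A = Gp ω r A) : ((r:ℝ) * ω, A') ∈ Lock ω r := by
  have hε : (0:ℝ) < 1 / ω := by positivity
  have hS : Sg r (1 / ω) (A / ω) := by
    unfold Gm Gp at h
    exact mul_left_cancel₀ hω.ne' h
  have h1 := Sg_axis hε (by positivity : 0 < A / ω) hS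
  have h2 : ((r:ℝ), A / ω) ∈ Ls r (1 / ω) := by
    have := gp_mem hε r (A / ω)
    rwa [h1.2] at this
  have h3 := axis_up hε (by positivity) (div_le_div_of_nonneg_right hAA.le hω.le) h2
  refine (mem_torus hω r _ _).2 ?_
  rw [mul_div_cancel_right₀ _ hω.ne']
  exact h3

lemma isAdj_iff (hω : 0 < ω) (r : ℤ) {p : ℝ × ℝ} (hp : 0 < p.2) :
    IsAdj ω r p ↔ Gm ω r p.2 = Gp ω r p.2 ∧ p.1 = r * ω := by
  obtain ⟨s, -, -, -, -, h5⟩ := exists_heights hω r
  obtain ⟨B, A⟩ := p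
  constructor
  · rintro ⟨h1, -, h3⟩
    have hm : (Gm ω r A, A) ∈ Lock ω r := (mem_Lock hω r _ _).2 ⟨le_rfl, Gm_le_Gp hω r A⟩
    have hp' : (Gp ω r A, A) ∈ Lock ω r := (mem_Lock hω r _ _).2 ⟨Gm_le_Gp hω r A, le_rfl⟩
    have e1 := (Prod.mk.inj (h3 _ hm rfl)).1
    have e2 := (Prod.mk.inj (h3 _ hp' rfl)).1
    have e3 : Gm ω r A = Gp ω r A := e1.trans e2.symm
    exact ⟨e3, e1.symm.trans (h5 A hp e3).1⟩
  · rintro ⟨h1, h2⟩
    simp only at h1 h2
    have h6 := h5 A hp h1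
    refine ⟨(mem_Lock hω r _ _).2 ⟨by rw [h6.1, h2], by rw [h6.2, h2]⟩, hp.ne', ?_⟩
    rintro ⟨B', A'⟩ hq hA
    simp only at hA
    subst hA
    have h7 := (mem_Lock hω r _ _).1 hq
    rw [h6.1, h6.2] at h7
    rw [h2, le_antisymm h7.2 h7.1]


/-- strictly inside the area on the axis -/
lemma axis_strict {r : ℤ} {ε a1 a : ℝ} (hε : 0 < ε) (ha1 : 0 < a1) (ha : a1 < a)
    (h1 : Sg r ε a1) (h2 : ¬ Sg r ε a) : gm r ε a < r ∧ (r:ℝ) < gp r ε a := by
  have ha0 : 0 < a := ha1.trans ha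
  have hlt : gm r ε a < gp r ε a := lt_of_le_of_ne (gm_le_gp hε r a) h2
  have key : ∀ n : ℕ, Sg ((n:ℤ) + 1) ε a1 → ¬ Sg ((n:ℤ) + 1) ε a →
      gm ((n:ℤ) + 1) ε a < (n:ℝ) + 1 ∧ (n:ℝ) + 1 < gp ((n:ℤ) + 1) ε a := by
    intro n h1 h2
    have hx1 := Sg_axis hε ha1 h1
    have hL1 : (((n:ℝ) + 1, a1) : ℝ × ℝ) ∈ Ls ((n:ℤ) + 1) ε := by
      have := gp_mem hε ((n:ℤ) + 1) a1
      rw [hx1.2] at this
      push_cast at this
      exact this
    have hM := (axis_iff n ha1.le hε).1 hL1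
    have hL : (((n:ℝ) + 1, a) : ℝ × ℝ) ∈ Ls ((n:ℤ) + 1) ε := (axis_iff n ha0.le hε).2 (hM.trans ha.le)
    have hmem := (mem_iff hε).1 hL
    have hns : ¬ Simple n ε a := by
      intro hs
      have := simple_unique hε ha0 (mul_pos two_pos (MM_pos n (by positivity))) hs
        (simple_MM n hε)
      linarith
    have hsl : {q : ℝ × ℝ | q ∈ Ls ((n:ℤ) + 1) ε ∧ q.2 = a} ≠ {((n:ℝ) + 1, a)} := by
      intro he
      apply h2
      have h3 : (gp ((n:ℤ) + 1) ε a, a) ∈ ({q : ℝ × ℝ | q ∈ Ls ((n:ℤ) + 1) ε ∧ q.2 = a}) :=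
        ⟨gp_mem hε _ a, rfl⟩
      have h4 : (gm ((n:ℤ) + 1) ε a, a) ∈ ({q : ℝ × ℝ | q ∈ Ls ((n:ℤ) + 1) ε ∧ q.2 = a}) :=
        ⟨gm_mem hε _ a, rfl⟩
      rw [he, mem_singleton_iff] at h3 h4
      exact (Prod.mk.inj h4).1.trans (Prod.mk.inj h3).1.symm
    have hfr : ∀ hb : ¬ (((n:ℝ) + 1, a) : ℝ × ℝ) ∈ interior (Ls ((n:ℤ) + 1) ε), False := by
      intro hb
      apply hns
      refine ⟨?_, hsl⟩
      rw [(isClosed_Ls _ _).frontier_eq]
      exact ⟨hL, hb⟩
    have hint : (((n:ℝ) + 1, a) : ℝ × ℝ) ∈ interior (Ls ((n:ℤ) + 1) ε) := by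
      by_contra hb
      exact hfr hb
    have e : Ls ((n:ℤ) + 1) ε = Reg (gm ((n:ℤ) + 1) ε) (gp ((n:ℤ) + 1) ε) univ := by
      ext ⟨b', a'⟩
      rw [mem_iff hε]
      simp [Reg]
    rw [e, Reg_interior (gm_cont hε _) (gp_cont hε _) interior_univ] at hint
    exact ⟨hint.1, hint.2.1⟩
  rcases lt_trichotomy r 0 with hr | hr | hr
  · obtain ⟨n, hn⟩ : ∃ n : ℕ, r = -((n:ℤ) + 1) := ⟨(-r - 1).toNat, by omega⟩
    subst hn
    rw [Sg_neg hε] at h1 h2
    have h3 := key n h1 h2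
    rw [gm_neg hε, gp_neg hε]
    push_cast
    constructor
    · linarith [h3.2]
    · linarith [h3.1]
  · subst hr
    have h3 := gm_neg hε 0 a
    rw [neg_zero] at h3
    constructor
    · simp only [Int.cast_zero]; linarith
    · simp only [Int.cast_zero]; linarith
  · obtain ⟨n, hn⟩ : ∃ n : ℕ, r = (n:ℤ) + 1 := ⟨(r - 1).toNat, by omega⟩
    subst hn
    have h3 := key n h1 h2
    push_cast
    exact h3

/-- the part of `X` between two consecutive of the heights of the points `p k` -/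
def comp (X : Set (ℝ × ℝ)) (p : ℕ → ℝ × ℝ) : ℕ → Set (ℝ × ℝ)
  | 0 => {q | q ∈ X ∧ q.2 < (p 0).2}
  | k + 1 => {q | q ∈ X ∧ (p k).2 < q.2 ∧ q.2 < (p (k + 1)).2}

/-- `X` is a garland of infinitely many components separated by the points `p 0, p 1, …`. -/
def Garland (X : Set (ℝ × ℝ)) (p : ℕ → ℝ × ℝ) : Prop :=
  (⋃ k, comp X p k) = X \ range p ∧
  (∀ k, ∀ q ∈ comp X p k, connectedComponentIn (X \ range p) q = comp X p k) ∧
  (∀ k, (comp X p k).Nonempty ∧ Bornology.IsBounded (comp X p k) ∧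
    IsConnected (interior (comp X p k)) ∧ comp X p k ⊆ closure (interior (comp X p k))) ∧
  (∀ j k, j < k → Disjoint (comp X p j) (comp X p k)) ∧
  (∀ k, closure (comp X p k) ∩ closure (comp X p (k + 1)) = {p k}) ∧
  ∀ j k, j + 1 < k → Disjoint (closure (comp X p j)) (closure (comp X p k))

/-- garlands between two graphs -/
theorem garland_of {gm gp : ℝ → ℝ} (hm : Continuous gm) (hp : Continuous gp)
    (hle : ∀ h, gm h ≤ gp h) (hbd : ∃ R, ∀ h, |gm h| ≤ R ∧ |gp h| ≤ R) {s : ℕ → ℝ} {c : ℝ}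
    (hs : StrictMono s) (hs0 : 0 < s 0) (hst : Tendsto s atTop atTop)
    (heq : ∀ h, 0 < h → (gm h = gp h ↔ h ∈ range s)) (hc : ∀ k, gm (s k) = c ∧ gp (s k) = c) :
    Garland (Reg gm gp (Ici 0)) (fun k => (c, s k)) := by
  set X := Reg gm gp (Ici 0) with hX
  set p : ℕ → ℝ × ℝ := fun k => (c, s k) with hpd
  set lo : ℕ → ℝ := fun k => Nat.casesOn k 0 s with hlo
  set J : ℕ → Set ℝ := fun k => Nat.casesOn k (Ico 0 (s 0)) (fun k => Ioo (s k) (s (k + 1))) with hJ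
  have hspos : ∀ k, 0 < s k := fun k => hs0.trans_le (hs.monotone (Nat.zero_le k))
  have hlo0 : ∀ k, 0 ≤ lo k := by
    intro k
    cases k with
    | zero => exact le_rfl
    | succ k => exact (hspos k).le
  have hlos : ∀ k, lo k < s k := by
    intro k
    cases k with
    | zero => exact hs0
    | succ k => exact hs (Nat.lt_succ_self k)
  have hcomp : ∀ k, comp X p k = Reg gm gp (J k) := by
    intro k
    cases k with
    | zero =>
      ext q
      simp only [comp, hX, Reg, hJ, hpd, mem_ofPred_eq, mem_Ici]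
      constructor
      · rintro ⟨⟨h1, h2, h3⟩, h4⟩
        exact ⟨h1, h2, h3, h4⟩
      · rintro ⟨h1, h2, h3, h4⟩
        exact ⟨⟨h1, h2, h3⟩, h4⟩
    | succ k =>
      ext q
      simp only [comp, hX, Reg, hJ, hpd, mem_ofPred_eq, mem_Ici, mem_Ioo]
      constructor
      · rintro ⟨⟨h1, h2, h3⟩, h4, h5⟩
        exact ⟨h1, h2, h4, h5⟩
      · rintro ⟨h1, h2, h4, h5⟩
        exact ⟨⟨h1, h2, (hspos k).le.trans h4.le⟩, h4, h5⟩
  have hJint : ∀ k, interior (J k) = Ioo (lo k) (s k) := by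
    intro k
    cases k with
    | zero => simp only [hJ, hlo]; exact interior_Ico
    | succ k => simp only [hJ, hlo]; exact interior_Ioo
  have hJsub : ∀ k, J k ⊆ Icc (lo k) (s k) := by
    intro k
    cases k with
    | zero => exact Ico_subset_Icc_self
    | succ k => exact Ioo_subset_Icc_self
  have hJsub' : ∀ k, Ioo (lo k) (s k) ⊆ J k := fun k => (hJint k) ▸ interior_subset
  have hJlt : ∀ k, ∀ h ∈ J k, h < s k := by
    intro k h hh
    cases k with
    | zero => exact hh.2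
    | succ k => exact hh.2
  have hJc : ∀ k, IsConnected (J k) := by
    intro k
    cases k with
    | zero => exact isConnected_Ico hs0
    | succ k => exact isConnected_Ioo (hs (Nat.lt_succ_self k))
  have hlt : ∀ k, ∀ h ∈ Ioo (lo k) (s k), gm h < gp h := by
    intro k h hh
    have h0 : 0 < h := (hlo0 k).trans_lt hh.1
    refine lt_of_le_of_ne (hle h) fun he => ?_
    obtain ⟨j, hj⟩ := (heq h h0).1 he
    have h1 : s j < s k := by rw [hj]; exact hh.2
    have h2 : j < k := hs.lt_iff_lt.1 h1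
    cases k with
    | zero => omega
    | succ k =>
      have h3 : s j ≤ s k := hs.monotone (by omega)
      rw [hj] at h3
      have h4 : s k < h := hh.1
      linarith
  have hint : ∀ k, interior (comp X p k) = Reg' gm gp (Ioo (lo k) (s k)) := fun k => by
    rw [hcomp]; exact Reg_interior hm hp (hJint k)
  have hcl : ∀ k, Icc (lo k) (s k) = closure (Ioo (lo k) (s k)) := fun k =>
    (closure_Ioo (hlos k).ne).symm
  -- points at the heights `s k`
  have hpt : ∀ q ∈ X, ∀ k, q.2 = s k → q = p k := by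
    rintro ⟨b, h⟩ hq k hk
    simp only at hk
    subst hk
    have h1 : gm (s k) ≤ b := hq.1
    have h2 : b ≤ gp (s k) := hq.2.1
    rw [(hc k).1] at h1
    rw [(hc k).2] at h2
    simp only [hpd]
    rw [le_antisymm h2 h1]
  have hpX : ∀ k, p k ∈ X := fun k => ⟨(hc k).1.le, (hc k).2.ge, (hspos k).le⟩
  have hregcl : ∀ k, closure (comp X p k) ⊆ Reg gm gp (Icc (lo k) (s k)) := by
    intro k
    rw [hcomp]
    refine closure_minimal (fun q hq => ⟨hq.1, hq.2.1, hJsub k hq.2.2⟩) ?_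
    have h1 : IsClosed {p : ℝ × ℝ | gm p.2 ≤ p.1} :=
      isClosed_le (hm.comp continuous_snd) continuous_fst
    have h2 : IsClosed {p : ℝ × ℝ | p.1 ≤ gp p.2} :=
      isClosed_le continuous_fst (hp.comp continuous_snd)
    have h3 : IsClosed {p : ℝ × ℝ | p.2 ∈ Icc (lo k) (s k)} :=
      isClosed_Icc.preimage continuous_snd
    exact h1.inter (h2.inter h3)
  have hclreg : ∀ k, Reg gm gp (Icc (lo k) (s k)) ⊆ closure (interior (comp X p k)) := by
    intro k
    rw [hint]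
    exact Reg_subset_closure hm hp hle (hcl k).le (hlt k)
  have hnot : ∀ k, ∀ q ∈ comp X p k, q ∈ X \ range p := by
    intro k q hq
    rw [hcomp] at hq
    have hJX : q ∈ X := ⟨hq.1, hq.2.1, (hlo0 k).trans (hJsub k hq.2.2).1⟩
    refine ⟨hJX, ?_⟩
    rintro ⟨j, rfl⟩
    have h1 : s j < s k := hJlt k _ hq.2.2
    have h2 : j < k := hs.lt_iff_lt.1 h1
    cases k with
    | zero => omega
    | succ k =>
      have h3 : s j ≤ s k := hs.monotone (by omega)
      have h4 : s k < s j := hq.2.2.1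
      linarith
  refine ⟨?_, ?_, ?_, ?_, ?_, ?_⟩
  · apply Subset.antisymm
    · exact iUnion_subset hnot
    · rintro q ⟨hq, hqr⟩
      have hne : ∀ k, q.2 ≠ s k := fun k hk => hqr ⟨k, (hpt q hq k hk).symm⟩
      have hex : ∃ k, q.2 < s k := (hst.eventually_gt_atTop q.2).exists
      classical
      set k := Nat.find hex with hk
      have h1 : q.2 < s k := Nat.find_spec hex
      refine mem_iUnion.2 ⟨k, ?_⟩
      rw [hcomp]
      refine ⟨hq.1, hq.2.1, ?_⟩
      rcases Nat.eq_zero_or_pos k with h0 | h0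
      · rw [h0] at h1 ⊢
        exact ⟨hq.2.2, h1⟩
      · obtain ⟨m, hm'⟩ : ∃ m, k = m + 1 := ⟨k - 1, by omega⟩
        rw [hm'] at h1 ⊢
        refine ⟨lt_of_le_of_ne ?_ (hne m).symm, h1⟩
        by_contra hcon
        push Not at hcon
        have := Nat.find_min' hex hcon
        omega
  · intro k q hq
    have hsub : comp X p k ⊆ X \ range p := fun x hx => hnot k x hx
    apply Subset.antisymm
    · intro y hy
      have hYc := isPreconnected_connectedComponentIn (F := X \ range p) (x := q)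
      have hYs : connectedComponentIn (X \ range p) q ⊆ X \ range p := connectedComponentIn_subset _ _
      have hqY : q ∈ connectedComponentIn (X \ range p) q :=
        mem_connectedComponentIn (hsub hq)
      have himg : (Prod.snd '' (connectedComponentIn (X \ range p) q)).OrdConnected :=
        (hYc.image _ continuous_snd.continuousOn).ordConnected
      have hno : ∀ j, s j ∉ Prod.snd '' (connectedComponentIn (X \ range p) q) := by
        rintro j ⟨z, hz, hzj⟩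
        have h1 := hYs hz
        exact h1.2 ⟨j, (hpt z h1.1 j hzj).symm⟩
      have hyX := hYs hy
      have hq' := hq
      rw [hcomp] at hq' ⊢
      refine ⟨hyX.1.1, hyX.1.2.1, ?_⟩
      have h1 : y.2 < s k := by
        by_contra hcon
        push Not at hcon
        exact hno k (himg.out ⟨q, hqY, rfl⟩ ⟨y, hy, rfl⟩ ⟨(hJlt k _ hq'.2.2).le, hcon⟩)
      cases k with
      | zero => exact ⟨hyX.1.2.2, h1⟩
      | succ k =>
        refine ⟨?_, h1⟩
        by_contra hcon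
        push Not at hcon
        exact hno k (himg.out ⟨y, hy, rfl⟩ ⟨q, hqY, rfl⟩ ⟨hcon, hq'.2.2.1.le⟩)
    · refine IsPreconnected.subset_connectedComponentIn ?_ hq hsub
      rw [hcomp]
      exact (Reg_connected hm hp hle (hJc k)).isPreconnected
  · intro k
    obtain ⟨R, hR⟩ := hbd
    refine ⟨?_, ?_, ?_, ?_⟩
    · rw [hcomp]
      exact (Reg_connected hm hp hle (hJc k)).nonempty
    · refine (Metric.isBounded_Icc ((-R, 0) : ℝ × ℝ) (R, s k)).subset ?_
      rw [hcomp]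
      rintro ⟨b, h⟩ hq
      have h1 : gm h ≤ b := hq.1
      have h2 : b ≤ gp h := hq.2.1
      have h3 := hJsub k hq.2.2
      have h4 := (abs_le.1 (hR h).1).1
      have h5 := (abs_le.1 (hR h).2).2
      exact ⟨⟨by simp only; linarith, (hlo0 k).trans h3.1⟩, ⟨by simp only; linarith, h3.2⟩⟩
    · rw [hint]
      exact Reg'_connected hm hp (hlt k) (isConnected_Ioo (hlos k))
    · refine Subset.trans ?_ (hclreg k)
      rw [hcomp]
      exact fun q hq => ⟨hq.1, hq.2.1, hJsub k hq.2.2⟩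
  · intro j k hjk
    rw [Set.disjoint_left]
    intro q hq1 hq2
    rw [hcomp] at hq1 hq2
    have h1 := hJlt j _ hq1.2.2
    have h2 := (hJsub k hq2.2.2).1
    obtain ⟨m, rfl⟩ : ∃ m, k = m + 1 := ⟨k - 1, by omega⟩
    have h3 : s j ≤ s m := hs.monotone (by omega)
    have h4 : s m ≤ q.2 := h2
    linarith
  · intro k
    apply Subset.antisymm
    · rintro q ⟨h1, h2⟩
      have h3 := hregcl k h1
      have h4 := hregcl (k + 1) h2
      have h5 : q.2 = s k := le_antisymm h3.2.2.2 h4.2.2.1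
      have h6 : q ∈ X := ⟨h3.1, h3.2.1, (hlo0 k).trans h3.2.2.1⟩
      exact hpt q h6 k h5
    · rintro q rfl
      have h1 : ∀ j, s k ∈ Icc (lo j) (s j) → p k ∈ closure (comp X p j) := by
        intro j hj
        exact closure_mono interior_subset
          (hclreg j ⟨(hc k).1.le, (hc k).2.ge, hj⟩)
      exact ⟨h1 k ⟨(hlos k).le, le_rfl⟩, h1 (k + 1) ⟨le_rfl, (hs (Nat.lt_succ_self k)).le⟩⟩
  · intro j k hjk
    rw [Set.disjoint_left]
    intro q hq1 hq2
    have h1 := (hregcl j hq1).2.2.2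
    have h2 := (hregcl k hq2).2.2.1
    obtain ⟨m, rfl⟩ : ∃ m, k = m + 1 := ⟨k - 1, by omega⟩
    have h3 : s j < s m := hs (by omega)
    have h4 : s m ≤ q.2 := h2
    linarith

/-- Main theorem. -/
theorem main (ω : ℝ) (hω : 0 < ω) (r : ℤ) : ∃ p : ℕ → ℝ × ℝ,
    (StrictMono fun k => (p k).2) ∧ (Tendsto (fun k => (p k).2) atTop atTop) ∧
    (∀ k, (p k).1 = r * ω) ∧ range p = {q : ℝ × ℝ | IsAdj ω r q ∧ 0 < q.2} ∧
    Garland {q : ℝ × ℝ | q ∈ Lock ω r ∧ 0 ≤ q.2} p := by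
  obtain ⟨s, h1, h2, h3, h4, h5⟩ := exists_heights hω r
  have hspos : ∀ k, 0 < s k := fun k => h2.trans_le (h1.monotone (Nat.zero_le k))
  have hX : {q : ℝ × ℝ | q ∈ Lock ω r ∧ 0 ≤ q.2} = Reg (Gm ω r) (Gp ω r) (Ici 0) := by
    ext ⟨B, A⟩
    simp only [mem_ofPred_eq, mem_Lock hω, Reg, mem_Ici]
    tauto
  refine ⟨fun k => ((r:ℝ) * ω, s k), h1, h3, fun k => rfl, ?_, ?_⟩
  · ext ⟨B, A⟩
    constructor
    · rintro ⟨k, hk⟩
      have e := Prod.mk.inj hk
      rw [← e.1, ← e.2]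
      refine ⟨(isAdj_iff hω r (hspos k)).2 ⟨(h4 _ (hspos k)).2 ⟨k, rfl⟩, rfl⟩, hspos k⟩
    · rintro ⟨hadj, hA⟩
      have h6 := (isAdj_iff hω r hA).1 hadj
      obtain ⟨k, hk⟩ := (h4 A hA).1 h6.1
      refine ⟨k, ?_⟩
      have h7 : B = r * ω := h6.2
      simp only
      rw [hk, h7]
  · rw [hX]
    refine garland_of (Gm_cont hω r) (Gp_cont hω r) (Gm_le_Gp hω r) ?_ h1 h2 h3 h4 fun k =>
      h5 _ (hspos k) ((h4 _ (hspos k)).2 ⟨k, rfl⟩)
    refine ⟨|(r:ℝ) * ω| + 1, fun A => ⟨?_, ?_⟩⟩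
    · have h6 := Lock_bdd hω r (B := Gm ω r A) (A := A) ((mem_Lock hω r _ _).2
        ⟨le_rfl, Gm_le_Gp hω r A⟩)
      have := abs_sub_abs_le_abs_sub (Gm ω r A) (r * ω)
      linarith
    · have h6 := Lock_bdd hω r (B := Gp ω r A) (A := A) ((mem_Lock hω r _ _).2
        ⟨Gm_le_Gp hω r A, le_rfl⟩)
      have := abs_sub_abs_le_abs_sub (Gp ω r A) (r * ω)
      linarith

end Pool.Agent.Q180.PL
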