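import Pool.Agent.Q180.PL.Fin

set_option autoImplicit false
open Set Filter Topology

/-!
# Segments between consecutive adjacencies
-/

namespace Pool.Agent.Q180.PL
open H535R3

variable {ω : ℝ}

lemma Lock_eq (hω : 0 < ω) (r : ℤ) : Lock ω r = Reg (Gm ω r) (Gp ω r) univ := by
  ext ⟨B, A⟩
  simp only [mem_Lock hω, Reg, mem_ofPred_eq, mem_univ, and_true]

lemma interior_Lock (hω : 0 < ω) (r : ℤ) {B A : ℝ} (h1 : Gm ω r A < B) (h2 : B < Gp ω r A) :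
    (B, A) ∈ interior (Lock ω r) := by
  rw [Lock_eq hω, Reg_interior (Gm_cont hω r) (Gp_cont hω r) interior_univ]
  exact ⟨h1, h2, mem_univ _⟩

lemma axis_strict' (hω : 0 < ω) (r : ℤ) {A1 A : ℝ} (h0 : 0 < A1) (h1 : A1 < A)
    (h2 : Gm ω r A1 = Gp ω r A1) (h3 : Gm ω r A ≠ Gp ω r A) :
    Gm ω r A < r * ω ∧ (r:ℝ) * ω < Gp ω r A := by
  have hε : (0:ℝ) < 1 / ω := by positivity
  have hiff : ∀ A, Gm ω r A = Gp ω r A ↔ Sg r (1 / ω) (A / ω) := by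
    intro A
    unfold Gm Gp Sg
    exact ⟨fun h => mul_left_cancel₀ hω.ne' h, fun h => by rw [h]⟩
  have := axis_strict hε (by positivity : 0 < A1 / ω) (div_lt_div_of_pos_right h1 hω)
    ((hiff A1).1 h2) (fun h => h3 ((hiff A).2 h))
  unfold Gm Gp
  rw [mul_comm (r:ℝ)]
  exact ⟨mul_lt_mul_of_pos_left this.1 hω, mul_lt_mul_of_pos_left this.2 hω⟩

/-- consecutive adjacencies: the open segment lies in the interior -/
theorem seg_interior (hω : 0 < ω) (r : ℤ) {P Q : ℝ × ℝ} (hP : IsAdj ω r P) (hQ : IsAdj ω r Q)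
    (hP0 : 0 < P.2) (hPQ : P.2 < Q.2) (hno : ∀ c, IsAdj ω r c → ¬ (P.2 < c.2 ∧ c.2 < Q.2)) :
    openSegment ℝ P Q ⊆ interior {x | x ∈ Lock ω r ∧ P.2 < x.2 ∧ x.2 < Q.2} := by
  have h1 := (isAdj_iff hω r hP0).1 hP
  have h2 := (isAdj_iff hω r (hP0.trans hPQ)).1 hQ
  rintro x ⟨s, t, hs, ht, hst, rfl⟩
  have e1 : (s • P + t • Q).1 = r * ω := by
    simp only [Prod.fst_add, Prod.smul_fst, smul_eq_mul]
    rw [h1.2, h2.2, ← add_mul, hst, one_mul]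
  have e2 : (s • P + t • Q).2 = s * P.2 + t * Q.2 := by
    simp only [Prod.snd_add, Prod.smul_snd, smul_eq_mul]
  have h3 : P.2 < s * P.2 + t * Q.2 := by
    have : s = 1 - t := by linarith
    subst this
    nlinarith
  have h4 : s * P.2 + t * Q.2 < Q.2 := by
    have : t = 1 - s := by linarith
    subst this
    nlinarith
  set A := s * P.2 + t * Q.2 with hA
  have hne : Gm ω r A ≠ Gp ω r A := by
    intro he
    have h5 : IsAdj ω r ((r:ℝ) * ω, A) := (isAdj_iff hω r (hP0.trans h3)).2 ⟨he, rfl⟩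
    exact hno _ h5 ⟨h3, h4⟩
  have h6 := axis_strict' hω r hP0 h3 h1.1 hne
  have h7 := interior_Lock hω r h6.1 h6.2
  have e3 : s • P + t • Q = ((r:ℝ) * ω, A) := Prod.ext e1 e2
  rw [e3]
  have h8 : {x : ℝ × ℝ | x ∈ Lock ω r ∧ P.2 < x.2 ∧ x.2 < Q.2} =
      Lock ω r ∩ {x : ℝ × ℝ | P.2 < x.2 ∧ x.2 < Q.2} := rfl
  rw [h8, interior_inter]
  refine ⟨h7, ?_⟩
  have h9 : IsOpen {x : ℝ × ℝ | P.2 < x.2 ∧ x.2 < Q.2} :=
    (isOpen_lt continuous_const continuous_snd).inter (isOpen_lt continuous_snd continuous_const)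
  rw [h9.interior_eq]
  exact ⟨h3, h4⟩

/-- `Q` is the `k`-th adjacency of `L_r` in the upper half-plane, `k ≥ 1` -/
def IsNth (ω : ℝ) (r : ℤ) (k : ℕ) (Q : ℝ × ℝ) : Prop :=
  IsAdj ω r Q ∧ 0 < Q.2 ∧ {c : ℝ × ℝ | IsAdj ω r c ∧ 0 < c.2 ∧ c.2 < Q.2}.Finite ∧
    {c : ℝ × ℝ | IsAdj ω r c ∧ 0 < c.2 ∧ c.2 < Q.2}.ncard + 1 = k

lemma isNth_iff {r : ℤ} {p : ℕ → ℝ × ℝ} (hp : StrictMono fun k => (p k).2)
    (hr : range p = {q : ℝ × ℝ | IsAdj ω r q ∧ 0 < q.2}) {k : ℕ} {Q : ℝ × ℝ} :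
    IsNth ω r (k + 1) Q ↔ Q = p k := by
  have hset : ∀ j, {c : ℝ × ℝ | IsAdj ω r c ∧ 0 < c.2 ∧ c.2 < (p j).2} = p '' (Iio j) := by
    intro j
    ext c
    constructor
    · rintro ⟨h1, h2, h3⟩
      have h4 : c ∈ range p := by rw [hr]; exact ⟨h1, h2⟩
      obtain ⟨i, rfl⟩ := h4
      exact ⟨i, hp.lt_iff_lt.1 h3, rfl⟩
    · rintro ⟨i, hi, rfl⟩
      have h4 : p i ∈ {q : ℝ × ℝ | IsAdj ω r q ∧ 0 < q.2} := by rw [← hr]; exact ⟨i, rfl⟩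
      exact ⟨h4.1, h4.2, hp hi⟩
  have hinj : Function.Injective p := fun i j h => hp.injective (congrArg Prod.snd h)
  have hcard : ∀ j, {c : ℝ × ℝ | IsAdj ω r c ∧ 0 < c.2 ∧ c.2 < (p j).2}.ncard = j := by
    intro j
    rw [hset, ncard_image_of_injective _ hinj, ← Finset.coe_Iio, ncard_coe_finset, Nat.card_Iio]
  constructor
  · rintro ⟨h1, h2, -, h3⟩
    have h4 : Q ∈ range p := by rw [hr]; exact ⟨h1, h2⟩
    obtain ⟨j, rfl⟩ := h4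
    rw [hcard] at h3
    have : j = k := by omega
    rw [this]
  · rintro rfl
    have h4 : p k ∈ {q : ℝ × ℝ | IsAdj ω r q ∧ 0 < q.2} := by rw [← hr]; exact ⟨k, rfl⟩
    refine ⟨h4.1, h4.2, ?_, by rw [hcard]⟩
    rw [hset]
    exact (finite_Iio k).image p

/-- all `k`-th adjacencies exist -/
theorem exists_nth (hω : 0 < ω) (r : ℤ) {k : ℕ} (hk : 1 ≤ k) : ∃! Q, IsNth ω r k Q := by
  obtain ⟨p, h1, h2, h3, h4, h5⟩ := main ω hω r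
  obtain ⟨j, rfl⟩ : ∃ j, k = j + 1 := ⟨k - 1, by omega⟩
  exact ⟨p j, (isNth_iff h1 h4).2 rfl, fun Q hQ => (isNth_iff h1 h4).1 hQ⟩

/-- the `k`-th component contains the segment between the adjacencies `k - 1` and `k` -/
theorem seg_main (hω : 0 < ω) (r : ℤ) {k : ℕ} (hk : 2 ≤ k) {P Q : ℝ × ℝ} (hP : IsNth ω r (k - 1) P)
    (hQ : IsNth ω r k Q) :
    openSegment ℝ P Q ⊆ interior {x | x ∈ Lock ω r ∧ P.2 < x.2 ∧ x.2 < Q.2} ∧
    ∀ x, x ∈ Lock ω r → P.2 < x.2 → x.2 < Q.2 →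
      connectedComponentIn ({q : ℝ × ℝ | q ∈ Lock ω r ∧ 0 ≤ q.2} \ {q | IsAdj ω r q}) x =
        {x | x ∈ Lock ω r ∧ P.2 < x.2 ∧ x.2 < Q.2} := by
  obtain ⟨p, h1, h2, h3, h4, h5⟩ := main ω hω r
  obtain ⟨j, rfl⟩ : ∃ j, k = j + 2 := ⟨k - 2, by omega⟩
  have eP : P = p j := (isNth_iff h1 h4).1 hP
  have eQ : Q = p (j + 1) := (isNth_iff h1 h4).1 hQ
  subst eP eQ
  have hadj : ∀ i, IsAdj ω r (p i) ∧ 0 < (p i).2 := by
    intro i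
    have : p i ∈ {q : ℝ × ℝ | IsAdj ω r q ∧ 0 < q.2} := by rw [← h4]; exact ⟨i, rfl⟩
    exact this
  refine ⟨seg_interior hω r (hadj j).1 (hadj (j + 1)).1 (hadj j).2 (h1 (Nat.lt_succ_self j)) ?_, ?_⟩
  · rintro c hc ⟨h6, h7⟩
    have h8 : c ∈ range p := by rw [h4]; exact ⟨hc, (hadj j).2.trans h6⟩
    obtain ⟨i, rfl⟩ := h8
    have h9 := h1.lt_iff_lt.1 h6
    have h10 := h1.lt_iff_lt.1 h7
    omega
  · intro x hx1 hx2 hx3
    have e1 : comp {q : ℝ × ℝ | q ∈ Lock ω r ∧ 0 ≤ q.2} p (j + 1) =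
        {x | x ∈ Lock ω r ∧ (p j).2 < x.2 ∧ x.2 < (p (j + 1)).2} := by
      ext y
      simp only [comp, mem_ofPred_eq]
      constructor
      · rintro ⟨⟨h6, -⟩, h7⟩
        exact ⟨h6, h7⟩
      · rintro ⟨h6, h7, h8⟩
        exact ⟨⟨h6, ((hadj j).2.trans h7).le⟩, h7, h8⟩
    have e2 : ({q : ℝ × ℝ | q ∈ Lock ω r ∧ 0 ≤ q.2} \ {q | IsAdj ω r q}) =
        {q : ℝ × ℝ | q ∈ Lock ω r ∧ 0 ≤ q.2} \ range p := by
      rw [h4]
      ext y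
      simp only [mem_sdiff, mem_ofPred_eq]
      constructor
      · rintro ⟨h6, h7⟩
        exact ⟨h6, fun h8 => h7 h8.1⟩
      · rintro ⟨h6, h7⟩
        exact ⟨h6, fun h8 => h7 ⟨h8, lt_of_le_of_ne h6.2 (Ne.symm h8.2.1)⟩⟩
    rw [e2, ← e1]
    exact h5.2.1 (j + 1) x (by rw [e1]; exact ⟨hx1, hx2, hx3⟩)
where
  mem_sdiff {α : Type} {s t : Set α} (x : α) : x ∈ s \ t ↔ x ∈ s ∧ x ∉ t := Iff.rfl

end Pool.Agent.Q180.PL
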