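import Pool.Agent.Q180.PL.Asym
import Pool.Agent.Q180.PL.Axis
import Pool.Agent.H535R3.KI

set_option autoImplicit false
open Set Filter Topology MeasureTheory

/-!
# The boundary functions of a phase-lock area (scaled coordinates)
-/

namespace Pool.Agent.Q180.PL
open H535R3

variable {r : ℤ} {ε a b : ℝ}

lemma P_close (hε : 0 < ε) (b a x : ℝ) : |P b a ε x - x - 2 * Real.pi * b| ≤ 2 * Real.pi * ε := by
  have hpi := Real.pi_pos
  set φ := fl b a ε x with hφ
  have hd : ∀ t ∈ Icc 0 (2 * Real.pi), HasDerivWithinAt (fun t => φ t - b * t - a * Real.sin t)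
      (-(ε * Real.sin (φ t))) (Icc 0 (2 * Real.pi)) t := by
    intro t _
    refine HasDerivAt.hasDerivWithinAt ?_
    have h1 := ((fl_sol b a ε x t).sub ((hasDerivAt_id t).const_mul b)).sub
      ((Real.hasDerivAt_sin t).const_mul a)
    exact h1.congr_deriv (by ring)
  have h1 := Convex.norm_image_sub_le_of_norm_hasDerivWithin_le (C := ε) hd (fun t _ => by
      rw [norm_neg, Real.norm_eq_abs, abs_mul, abs_of_pos hε]
      exact mul_le_of_le_one_right hε.le (Real.abs_sin_le_one _)) (convex_Icc _ _)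
    (left_mem_Icc.2 (by positivity)) (right_mem_Icc.2 (by positivity : 0 ≤ 2 * Real.pi))
  simp only [Real.sin_two_pi, mul_zero, sub_zero, Real.sin_zero, Real.norm_eq_abs] at h1
  rw [hφ, fl_zero, abs_of_pos (by positivity : 0 < 2 * Real.pi)] at h1
  rw [P]
  rw [show fl b a ε x (2 * Real.pi) - x - 2 * Real.pi * b =
    fl b a ε x (2 * Real.pi) - b * (2 * Real.pi) - x by ring]
  linarith

lemma slice_bdd (hε : 0 < ε) (h : (b, a) ∈ Ls r ε) : |b - r| ≤ ε := by
  obtain ⟨x, hx⟩ := h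
  simp only at hx
  have h1 := P_close hε b a x
  rw [hx, show x + 2 * Real.pi * r - x - 2 * Real.pi * b = -(2 * Real.pi * (b - r)) by ring,
    abs_neg, abs_mul, abs_of_pos (by positivity : 0 < 2 * Real.pi)] at h1
  exact le_of_mul_le_mul_left h1 (by positivity)

lemma cont_b (a ε x : ℝ) : Continuous fun b => P b a ε x :=
  (cont_q ε x).comp (Continuous.prodMk continuous_id continuous_const)

lemma cont_a (b ε x : ℝ) : Continuous fun a => P b a ε x :=
  (cont_q ε x).comp (Continuous.prodMk continuous_const continuous_id)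

/-- a strict inequality can be repaired by moving to the right -/
lemma exists_right (hε : 0 < ε) {x : ℝ} (h : P b a ε x < x + 2 * Real.pi * r) :
    ∃ b', b < b' ∧ (b', a) ∈ Ls r ε := by
  have hpi := Real.pi_pos
  set B := max b (r + ε) with hB
  have h1 : x + 2 * Real.pi * r ≤ P B a ε x := by
    have h2 := (abs_le.1 (P_close hε B a x)).1
    have h3 : (r:ℝ) + ε ≤ B := le_max_right _ _
    have h4 : 2 * Real.pi * (r + ε) ≤ 2 * Real.pi * B := mul_le_mul_of_nonneg_left h3 (by positivity)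
    linarith
  obtain ⟨b', hb', he⟩ := intermediate_value_Icc (le_max_left b (r + ε)) (cont_b a ε x).continuousOn
    ⟨h.le, h1⟩
  refine ⟨b', ?_, x, he⟩
  rcases hb'.1.lt_or_eq with h5 | h5
  · exact h5
  · rw [← h5] at he
    simp only at he
    linarith

lemma exists_left (hε : 0 < ε) {x : ℝ} (h : x + 2 * Real.pi * r < P b a ε x) :
    ∃ b', b' < b ∧ (b', a) ∈ Ls r ε := by
  have hpi := Real.pi_pos
  set B := min b (r - ε) with hB
  have h1 : P B a ε x ≤ x + 2 * Real.pi * r := by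
    have h2 := (abs_le.1 (P_close hε B a x)).2
    have h3 : B ≤ (r:ℝ) - ε := min_le_right _ _
    have h4 : 2 * Real.pi * B ≤ 2 * Real.pi * (r - ε) := mul_le_mul_of_nonneg_left h3 (by positivity)
    linarith
  obtain ⟨b', hb', he⟩ := intermediate_value_Icc (min_le_left b (r - ε)) (cont_b a ε x).continuousOn
    ⟨h1, h.le⟩
  refine ⟨b', ?_, x, he⟩
  rcases hb'.2.lt_or_eq with h5 | h5
  · exact h5
  · rw [h5] at he
    simp only at he
    linarith

lemma slice_nonempty (hε : 0 < ε) (r : ℤ) (a : ℝ) : ∃ b, (b, a) ∈ Ls r ε := by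
  have hpi := Real.pi_pos
  obtain ⟨b', _, h⟩ := exists_right (r := r) (b := (r:ℝ) - 2 * ε) (a := a) (x := 0) hε (by
    have h2 := (abs_le.1 (P_close hε ((r:ℝ) - 2 * ε) a 0)).2
    nlinarith [mul_pos hpi hε])
  exact ⟨b', h⟩

lemma slice_convex {b1 b2 : ℝ} (h1 : (b1, a) ∈ Ls r ε) (h2 : (b2, a) ∈ Ls r ε) (h3 : b1 ≤ b)
    (h4 : b ≤ b2) : (b, a) ∈ Ls r ε := by
  rcases h3.lt_or_eq with h3 | rfl
  · rcases h4.lt_or_eq with h4 | rfl
    · obtain ⟨x1, hx1⟩ := h1
      obtain ⟨x2, hx2⟩ := h2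
      simp only at hx1 hx2
      refine mem_Ls_of (u := x1) (v := x2) ?_ ?_
      · rw [← hx1]; exact (P_lt_of_b h3).le
      · rw [← hx2]; exact (P_lt_of_b h4).le
    · exact h2
  · exact h1

noncomputable def gp (r : ℤ) (ε a : ℝ) : ℝ := sSup {b | (b, a) ∈ Ls r ε}
noncomputable def gm (r : ℤ) (ε a : ℝ) : ℝ := sInf {b | (b, a) ∈ Ls r ε}

lemma slice_closed (r : ℤ) (ε a : ℝ) : IsClosed {b | (b, a) ∈ Ls r ε} :=
  (isClosed_Ls r ε).preimage (Continuous.prodMk continuous_id continuous_const)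

lemma slice_above (hε : 0 < ε) (r : ℤ) (a : ℝ) : BddAbove {b | (b, a) ∈ Ls r ε} :=
  ⟨r + ε, fun b hb => by have := (abs_le.1 (slice_bdd hε hb)).2; linarith⟩

lemma slice_below (hε : 0 < ε) (r : ℤ) (a : ℝ) : BddBelow {b | (b, a) ∈ Ls r ε} :=
  ⟨r - ε, fun b hb => by have := (abs_le.1 (slice_bdd hε hb)).1; linarith⟩

lemma gp_mem (hε : 0 < ε) (r : ℤ) (a : ℝ) : (gp r ε a, a) ∈ Ls r ε :=
  (slice_closed r ε a).csSup_mem (slice_nonempty hε r a) (slice_above hε r a)

lemma gm_mem (hε : 0 < ε) (r : ℤ) (a : ℝ) : (gm r ε a, a) ∈ Ls r ε :=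
  (slice_closed r ε a).csInf_mem (slice_nonempty hε r a) (slice_below hε r a)

lemma le_gp (hε : 0 < ε) (h : (b, a) ∈ Ls r ε) : b ≤ gp r ε a := le_csSup (slice_above hε r a) h
lemma gm_le (hε : 0 < ε) (h : (b, a) ∈ Ls r ε) : gm r ε a ≤ b := csInf_le (slice_below hε r a) h

lemma mem_iff (hε : 0 < ε) : (b, a) ∈ Ls r ε ↔ gm r ε a ≤ b ∧ b ≤ gp r ε a :=
  ⟨fun h => ⟨gm_le hε h, le_gp hε h⟩, fun h => slice_convex (gm_mem hε r a) (gp_mem hε r a) h.1 h.2⟩

lemma gm_le_gp (hε : 0 < ε) (r : ℤ) (a : ℝ) : gm r ε a ≤ gp r ε a := gm_le hε (gp_mem hε r a)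

lemma lt_gp_iff (hε : 0 < ε) : b < gp r ε a ↔ ∃ x, P b a ε x < x + 2 * Real.pi * r := by
  constructor
  · intro h
    obtain ⟨x, hx⟩ := gp_mem hε r a
    simp only at hx
    exact ⟨x, by rw [← hx]; exact P_lt_of_b h⟩
  · rintro ⟨x, hx⟩
    obtain ⟨b', h1, h2⟩ := exists_right hε hx
    exact h1.trans_le (le_gp hε h2)

lemma gm_lt_iff (hε : 0 < ε) : gm r ε a < b ↔ ∃ x, x + 2 * Real.pi * r < P b a ε x := by
  constructor
  · intro h
    obtain ⟨x, hx⟩ := gm_mem hε r a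
    simp only at hx
    exact ⟨x, by rw [← hx]; exact P_lt_of_b h⟩
  · rintro ⟨x, hx⟩
    obtain ⟨b', h1, h2⟩ := exists_left hε hx
    exact (gm_le hε h2).trans_lt h1

lemma gp_cont (hε : 0 < ε) (r : ℤ) : Continuous (gp r ε) := by
  rw [continuous_iff_continuousAt]
  intro a
  refine tendsto_order.2 ⟨fun y hy => ?_, fun y hy => ?_⟩
  · obtain ⟨x, hx⟩ := (lt_gp_iff hε).1 hy
    have := (cont_a y ε x).continuousAt.eventually (gt_mem_nhds hx)
    filter_upwards [this] with a' ha'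
    exact (lt_gp_iff hε).2 ⟨x, ha'⟩
  · have h1 : gm r ε a < y := (gm_le_gp hε r a).trans_lt hy
    obtain ⟨x, hx⟩ := (gm_lt_iff hε).1 h1
    have e1 := (cont_a y ε x).continuousAt.eventually (lt_mem_nhds hx)
    have h2 : (y, a) ∉ Ls r ε := fun h => absurd (le_gp hε h) (not_le.2 hy)
    have e2 : ∀ᶠ a' in 𝓝 a, (y, a') ∉ Ls r ε := by
      have hopen : IsOpen {a' | (y, a') ∉ Ls r ε} :=
        ((isClosed_Ls r ε).preimage (Continuous.prodMk continuous_const continuous_id)).isOpen_compl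
      exact hopen.mem_nhds h2
    filter_upwards [e1, e2] with a' h3 h4
    by_contra h5
    push Not at h5
    exact h4 ((mem_iff hε).2 ⟨((gm_lt_iff hε).2 ⟨x, h3⟩).le, h5⟩)

lemma gm_cont (hε : 0 < ε) (r : ℤ) : Continuous (gm r ε) := by
  rw [continuous_iff_continuousAt]
  intro a
  refine tendsto_order.2 ⟨fun y hy => ?_, fun y hy => ?_⟩
  · have h1 : y < gp r ε a := hy.trans_le (gm_le_gp hε r a)
    obtain ⟨x, hx⟩ := (lt_gp_iff hε).1 h1
    have e1 := (cont_a y ε x).continuousAt.eventually (gt_mem_nhds hx)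
    have h2 : (y, a) ∉ Ls r ε := fun h => absurd (gm_le hε h) (not_le.2 hy)
    have e2 : ∀ᶠ a' in 𝓝 a, (y, a') ∉ Ls r ε := by
      have hopen : IsOpen {a' | (y, a') ∉ Ls r ε} :=
        ((isClosed_Ls r ε).preimage (Continuous.prodMk continuous_const continuous_id)).isOpen_compl
      exact hopen.mem_nhds h2
    filter_upwards [e1, e2] with a' h3 h4
    by_contra h5
    push Not at h5
    exact h4 ((mem_iff hε).2 ⟨h5, ((lt_gp_iff hε).2 ⟨x, h3⟩).le⟩)
  · obtain ⟨x, hx⟩ := (gm_lt_iff hε).1 hy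
    have := (cont_a y ε x).continuousAt.eventually (lt_mem_nhds hx)
    filter_upwards [this] with a' ha'
    exact (gm_lt_iff hε).2 ⟨x, ha'⟩

/-- The slice at height `a` is a single point. -/
def Sg (r : ℤ) (ε a : ℝ) : Prop := gm r ε a = gp r ε a

lemma Sg_iff (hε : 0 < ε) (ha : 0 < a) :
    Sg r ε a ↔ ∀ x, P r a ε x = x + 2 * Real.pi * r := by
  constructor
  · intro h
    have h0 := gp_mem hε r a
    have hu : ∀ b', (b', a) ∈ Ls r ε → b' = gp r ε a := fun b' hb' =>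
      le_antisymm (le_gp hε hb') (h ▸ gm_le hε hb')
    have h1 := single_axis hε ha h0 hu
    have h2 := single_ident h0 hu
    rw [h1] at h2
    exact h2
  · intro h
    have h1 := slice_of_rot h
    have h2 : (gp r ε a, a) ∈ ({q : ℝ × ℝ | q ∈ Ls r ε ∧ q.2 = a}) := ⟨gp_mem hε r a, rfl⟩
    have h3 : (gm r ε a, a) ∈ ({q : ℝ × ℝ | q ∈ Ls r ε ∧ q.2 = a}) := ⟨gm_mem hε r a, rfl⟩
    rw [h1, mem_singleton_iff] at h2 h3
    exact (Prod.mk.inj h3).1.trans (Prod.mk.inj h2).1.symm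

lemma Sg_axis (hε : 0 < ε) (ha : 0 < a) (h : Sg r ε a) : gm r ε a = r ∧ gp r ε a = r := by
  have h0 := gp_mem hε r a
  have hu : ∀ b', (b', a) ∈ Ls r ε → b' = gp r ε a := fun b' hb' =>
    le_antisymm (le_gp hε hb') (h ▸ gm_le hε hb')
  have h1 := single_axis hε ha h0 hu
  exact ⟨h.trans h1, h1⟩

lemma Ls_neg_iff : (b, a) ∈ Ls r ε ↔ (-b, a) ∈ Ls (-r) ε :=
  ⟨fun h => Ls_neg h, fun h => by simpa using Ls_neg h⟩

lemma gm_neg (hε : 0 < ε) (r : ℤ) (a : ℝ) : gm (-r) ε a = -gp r ε a := by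
  apply le_antisymm
  · exact gm_le hε (Ls_neg (gp_mem hε r a))
  · have h1 : (-gm (-r) ε a, a) ∈ Ls r ε := by simpa using Ls_neg (gm_mem hε (-r) a)
    have := le_gp hε h1
    linarith

lemma gp_neg (hε : 0 < ε) (r : ℤ) (a : ℝ) : gp (-r) ε a = -gm r ε a := by
  have := gm_neg hε (-r) a
  rw [neg_neg] at this
  linarith

lemma Sg_neg (hε : 0 < ε) : Sg (-r) ε a ↔ Sg r ε a := by
  unfold Sg
  rw [gm_neg hε, gp_neg hε]
  constructor
  · intro h; linarith
  · intro h; linarith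

/-- Adjacencies at arbitrarily large heights. -/
theorem Sg_large_nat (r : ℕ) (hε : 0 < ε) (A : ℝ) : ∃ a, A ≤ a ∧ 0 < a ∧ Sg r ε a := by
  rcases Nat.eq_zero_or_pos r with h0 | h0
  · subst h0
    obtain ⟨a, ha, hP⟩ := fixed_large 0 hε (max A 1)
    have ha1 : A ≤ a := (le_max_left _ _).trans ha
    have ha0 : 0 < a := lt_of_lt_of_le one_pos ((le_max_right _ _).trans ha)
    refine ⟨a, ha1, ha0, ?_⟩
    rw [Sg_iff hε ha0]
    by_contra hne
    have hP' : P ((0:ℕ):ℤ) a ε (Real.pi / 2) = Real.pi / 2 + 2 * Real.pi * ((0:ℕ):ℤ) := by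
      exact_mod_cast hP
    have h1 := frontier_of_parabolic hP' (Kx_sym hP') hne
    have hsym := gm_neg hε ((0:ℕ):ℤ) a
    have e0 : -((0:ℕ):ℤ) = ((0:ℕ):ℤ) := by simp
    rw [e0] at hsym
    have hle := gm_le_gp hε ((0:ℕ):ℤ) a
    rcases hle.lt_or_eq with h2 | h2
    · -- interior point
      have h3 : gm ((0:ℕ):ℤ) ε a < 0 := by linarith
      have h4 : 0 < gp ((0:ℕ):ℤ) ε a := by linarith
      obtain ⟨x, hx⟩ := (gm_lt_iff hε).1 h3
      obtain ⟨y, hy⟩ := (lt_gp_iff hε).1 h4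
      have h5 : ((0:ℝ), a) ∈ interior (Ls ((0:ℕ):ℤ) ε) := mem_interior_Ls hx hy
      have h6 := h1.1
      simp only [Nat.cast_zero, Int.cast_zero] at h5 h6
      rw [frontier, Set.mem_sdiff] at h6
      exact h6.2 h5
    · exact hne ((Sg_iff hε ha0).1 h2)
  · obtain ⟨n, rfl⟩ : ∃ n, r = n + 1 := ⟨r - 1, by omega⟩
    obtain ⟨a, ha, hP⟩ := fixed_large (n + 1) hε (max A (max 1 (2 * MM n (ε / 2) + 1)))
    have ha1 : A ≤ a := (le_max_left _ _).trans ha
    have ha2 : 1 ≤ a := (le_max_left _ _).trans ((le_max_right _ _).trans ha)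
    have ha3 : 2 * MM n (ε / 2) + 1 ≤ a := (le_max_right _ _).trans ((le_max_right _ _).trans ha)
    have ha0 : 0 < a := by linarith
    refine ⟨a, ha1, ha0, ?_⟩
    rw [Sg_iff hε ha0]
    by_contra hne
    have hP' : P (((n + 1 : ℕ) : ℤ) : ℝ) a ε (Real.pi / 2) =
        Real.pi / 2 + 2 * Real.pi * (((n + 1 : ℕ) : ℤ) : ℝ) := by exact_mod_cast hP
    have h1 := frontier_of_parabolic hP' (Kx_sym hP') hne
    have h2 : Simple n ε a := by
      unfold Simple
      push_cast at h1 ⊢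
      exact h1
    have h3 := simple_unique hε ha0 (mul_pos two_pos (MM_pos n (by positivity))) h2
      (simple_MM n hε)
    linarith

theorem Sg_large (r : ℤ) (hε : 0 < ε) (A : ℝ) : ∃ a, A ≤ a ∧ 0 < a ∧ Sg r ε a := by
  rcases le_total 0 r with h | h
  · obtain ⟨n, rfl⟩ : ∃ n : ℕ, r = n := ⟨r.toNat, by omega⟩
    exact Sg_large_nat n hε A
  · obtain ⟨n, hn⟩ : ∃ n : ℕ, -r = n := ⟨(-r).toNat, by omega⟩
    obtain ⟨a, h1, h2, h3⟩ := Sg_large_nat n hε A
    refine ⟨a, h1, h2, ?_⟩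
    rw [← hn] at h3
    exact (Sg_neg hε).1 h3

/-- Adjacencies are isolated. -/
theorem Sg_isolated_nat (r : ℕ) (hε : 0 < ε) (ha : 0 < a) (h : Sg r ε a) :
    ∀ᶠ a' in 𝓝[≠] a, ¬ Sg r ε a' := by
  have hall := (Sg_iff hε ha).1 h
  have hper := Cc_per (hall (Real.pi / 2))
  have hI : ∫ t in (0:ℝ)..(2 * Real.pi), Real.cos t *
      Real.exp (ε * Cc (fl ((r:ℤ):ℝ) a ε (Real.pi / 2)) t) ≠ 0 := by
    rw [← shift_int (f := fun t => Real.cos t *
      Real.exp (ε * Cc (fl ((r:ℤ):ℝ) a ε (Real.pi / 2)) t)) (fun t => by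
        rw [Real.cos_add_two_pi, hper.2])]
    obtain ⟨μ, hμ⟩ : ∃ μ, a = 2 * μ := ⟨a / 2, by ring⟩
    obtain ⟨e, he⟩ : ∃ e, ε = 2 * e := ⟨ε / 2, by ring⟩
    subst hμ he
    have hμ0 : 0 < μ := by linarith
    have he0 : 0 < e := by linarith
    rcases Nat.eq_zero_or_pos r with h0 | h0
    · subst h0
      have := Ic_ne0 hμ0 he0 (fun x => by
        have := hall x
        push_cast at this
        rw [mul_zero, add_zero] at this
        exact this)
      simpa using this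
    · obtain ⟨n, rfl⟩ : ∃ n, r = n + 1 := ⟨r - 1, by omega⟩
      have := Ic_ne (n := n) hμ0 he0 (fun x => by
        have := hall x
        push_cast at this ⊢
        exact this)
      push_cast
      exact this
  have hcont : Continuous fun t => Real.exp (ε * Cc (fl ((r:ℤ):ℝ) a ε (Real.pi / 2)) t) := by
    have h1 : Continuous (Cc (fl ((r:ℤ):ℝ) a ε (Real.pi / 2))) :=
      continuous_iff_continuousAt.2 fun t => (Cc_deriv (fl_sol _ _ _ _).cont t).continuousAt
    fun_prop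
  have e1 : ∀ σ : ℝ, ∫ u in (0:ℝ)..(2 * Real.pi), (0 + σ * Real.cos u) *
      Real.exp (ε * Cc (fl ((r:ℤ):ℝ) a ε (Real.pi / 2)) u) = σ * ∫ t in (0:ℝ)..(2 * Real.pi),
        Real.cos t * Real.exp (ε * Cc (fl ((r:ℤ):ℝ) a ε (Real.pi / 2)) t) := by
    intro σ
    rw [← intervalIntegral.integral_const_mul]
    refine intervalIntegral.integral_congr fun u _ => ?_
    ring
  -- both sides
  have key : ∀ σ : ℝ, |σ| = 1 → ∀ᶠ s in 𝓝[>] (0:ℝ), ¬ Sg r ε (a + σ * s) := by
    intro σ hσ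
    have hpos : ∀ᶠ s in 𝓝[>] (0:ℝ), 0 < a + σ * s := by
      have : Tendsto (fun s : ℝ => a + σ * s) (𝓝[>] 0) (𝓝 a) := by
        have h2 : Continuous fun s : ℝ => a + σ * s := by fun_prop
        have := h2.tendsto 0
        rw [mul_zero, add_zero] at this
        exact this.mono_left nhdsWithin_le_nhds
      exact this.eventually (lt_mem_nhds ha)
    have hne : σ * (∫ t in (0:ℝ)..(2 * Real.pi),
        Real.cos t * Real.exp (ε * Cc (fl ((r:ℤ):ℝ) a ε (Real.pi / 2)) t)) ≠ 0 := by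
      refine mul_ne_zero ?_ hI
      intro h2
      rw [h2, abs_zero] at hσ
      norm_num at hσ
    rcases lt_or_gt_of_ne hne with h2 | h2
    · have h3 := push_down (b := ((r:ℤ):ℝ)) (a := a) (ε := ε) (x := Real.pi / 2) (η := 0) (σ := σ)
        hper.1 (by rw [e1]; exact h2)
      filter_upwards [h3, hpos] with s h4 h5 h6
      have h7 := (Sg_iff hε h5).1 h6 (Real.pi / 2)
      rw [zero_mul, add_zero, h7, hall] at h4
      exact lt_irrefl _ h4
    · have h3 := push_up (b := ((r:ℤ):ℝ)) (a := a) (ε := ε) (x := Real.pi / 2) (η := 0) (σ := σ)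
        hper.1 (by rw [e1]; exact h2)
      filter_upwards [h3, hpos] with s h4 h5 h6
      have h7 := (Sg_iff hε h5).1 h6 (Real.pi / 2)
      rw [zero_mul, add_zero, h7, hall] at h4
      exact lt_irrefl _ h4
  have k1 := key 1 (by norm_num)
  have k2 := key (-1) (by norm_num)
  rw [eventually_nhdsWithin_iff, Metric.eventually_nhds_iff] at k1 k2
  obtain ⟨δ1, hδ1, k1⟩ := k1
  obtain ⟨δ2, hδ2, k2⟩ := k2
  rw [eventually_nhdsWithin_iff, Metric.eventually_nhds_iff]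
  refine ⟨min δ1 δ2, lt_min hδ1 hδ2, fun y hy hne => ?_⟩
  rw [Real.dist_eq] at hy
  have hne : y ≠ a := hne
  rcases lt_or_gt_of_ne hne with h2 | h2
  · have h3 := k2 (y := a - y) (by
      rw [Real.dist_eq, sub_zero, abs_sub_comm]
      exact hy.trans_le (min_le_right _ _)) (by simpa using h2)
    rw [show a + -1 * (a - y) = y by ring] at h3
    exact h3
  · have h3 := k1 (y := y - a) (by
      rw [Real.dist_eq, sub_zero]
      exact hy.trans_le (min_le_left _ _)) (by simpa using h2)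
    rw [show a + 1 * (y - a) = y by ring] at h3
    exact h3

theorem Sg_isolated (hε : 0 < ε) (ha : 0 < a) (h : Sg r ε a) :
    ∀ᶠ a' in 𝓝[≠] a, ¬ Sg r ε a' := by
  rcases le_total 0 r with hr | hr
  · obtain ⟨n, rfl⟩ : ∃ n : ℕ, r = n := ⟨r.toNat, by omega⟩
    exact Sg_isolated_nat n hε ha h
  · obtain ⟨n, hn⟩ : ∃ n : ℕ, -r = n := ⟨(-r).toNat, by omega⟩
    have h1 : Sg (n:ℤ) ε a := by rw [← hn]; exact (Sg_neg hε).2 h
    filter_upwards [Sg_isolated_nat n hε ha h1] with a' ha' h2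
    apply ha'
    rw [← hn]
    exact (Sg_neg hε).2 h2

lemma Sg_closed (hε : 0 < ε) (r : ℤ) : IsClosed {a | Sg r ε a} :=
  isClosed_eq (gm_cont hε r) (gp_cont hε r)

/-- There are no adjacencies close to height `0`. -/
theorem Sg_low (hε : 0 < ε) (r : ℤ) : ∃ δ, 0 < δ ∧ ∀ a, 0 < a → Sg r ε a → δ ≤ a := by
  have key : ∀ n : ℕ, ∃ δ, 0 < δ ∧ ∀ a, 0 < a → Sg n ε a → δ ≤ a := by
    intro n
    rcases Nat.eq_zero_or_pos n with h0 | h0
    · subst h0
      -- near `a = 0` the map has slope at `π/2`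
      have h1 : P 0 0 ε (Real.pi / 2) < Real.pi / 2 := by
        have := trap (b := 0) (a := 0) (ε := ε) le_rfl (by linarith)
        exact this
      have h2 : ∀ᶠ a in 𝓝 (0:ℝ), P 0 a ε (Real.pi / 2) < Real.pi / 2 :=
        (cont_a 0 ε (Real.pi / 2)).continuousAt.eventually (gt_mem_nhds h1)
      rw [Metric.eventually_nhds_iff] at h2
      obtain ⟨δ, hδ, h2⟩ := h2
      refine ⟨δ, hδ, fun a ha hS => ?_⟩
      by_contra hc
      push Not at hc
      have h3 := h2 (y := a) (by rw [Real.dist_eq, sub_zero, abs_of_pos ha]; exact hc)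
      have h4 := (Sg_iff hε ha).1 hS (Real.pi / 2)
      simp only [Nat.cast_zero, Int.cast_zero, mul_zero, add_zero] at h4
      rw [h4] at h3
      exact lt_irrefl _ h3
    · obtain ⟨m, rfl⟩ : ∃ m, n = m + 1 := ⟨n - 1, by omega⟩
      refine ⟨(m:ℝ) + 1 + ε, by positivity, fun a ha hS => ?_⟩
      refine ident_height hε ha fun x => ?_
      have := (Sg_iff hε ha).1 hS x
      push_cast at this ⊢
      exact this
  rcases le_total 0 r with hr | hr
  · obtain ⟨n, rfl⟩ : ∃ n : ℕ, r = n := ⟨r.toNat, by omega⟩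
    exact key n
  · obtain ⟨n, hn⟩ : ∃ n : ℕ, -r = n := ⟨(-r).toNat, by omega⟩
    obtain ⟨δ, hδ, h⟩ := key n
    refine ⟨δ, hδ, fun a ha hS => h a ha ?_⟩
    rw [← hn]
    exact (Sg_neg hε).2 hS

end Pool.Agent.Q180.PL
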