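import Pool.Agent.Q180.PL.Bess

set_option autoImplicit false
open Set Filter Topology MeasureTheory

/-!
# A van der Corput type bound
-/

namespace Pool.Agent.Q180.PL

noncomputable def pp (r : ℤ) (a s : ℝ) : ℝ := r + a * Real.cos s
noncomputable def ww (r : ℤ) (a κ s : ℝ) : ℝ := (κ ^ 2 + pp r a s ^ 2)⁻¹
noncomputable def mm (r : ℤ) (a κ s : ℝ) : ℂ := ((κ : ℂ) - Complex.I * (pp r a s : ℝ))⁻¹

lemma pp_deriv (r : ℤ) (a s : ℝ) : HasDerivAt (pp r a) (-(a * Real.sin s)) s := by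
  unfold pp
  have := ((Real.hasDerivAt_cos s).const_mul a).const_add (r:ℝ)
  exact this.congr_deriv (by ring)

lemma pp_cont (r : ℤ) (a : ℝ) : Continuous (pp r a) := by unfold pp; fun_prop

variable {r : ℤ} {a κ : ℝ}

lemma den_pos (hκ : 0 < κ) (s : ℝ) : 0 < κ ^ 2 + pp r a s ^ 2 := by positivity

lemma ww_pos (hκ : 0 < κ) (s : ℝ) : 0 < ww r a κ s := inv_pos.2 (den_pos hκ s)

lemma ww_cont (hκ : 0 < κ) : Continuous (ww r a κ) := by
  unfold ww
  have := pp_cont r a
  exact Continuous.inv₀ (by fun_prop) fun s => (den_pos hκ s).ne'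

lemma mden_ne (hκ : 0 < κ) (s : ℝ) : (κ : ℂ) - Complex.I * (pp r a s : ℝ) ≠ 0 := by
  intro h
  have := congrArg Complex.re h
  simp at this
  exact hκ.ne' this

lemma mm_normSq (s : ℝ) : ‖mm r a κ s‖ ^ 2 = ww r a κ s := by
  unfold mm ww
  rw [norm_inv, inv_pow, ← Complex.normSq_eq_norm_sq, Complex.normSq_apply]
  congr 1
  simp
  ring

lemma mm_norm_le (hκ : 0 < κ) (s : ℝ) : ‖mm r a κ s‖ ≤ 1 / κ := by
  have h1 : ‖mm r a κ s‖ ^ 2 ≤ (1 / κ) ^ 2 := by
    rw [mm_normSq, ww, one_div, inv_pow]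
    exact inv_anti₀ (by positivity) (by nlinarith [sq_nonneg (pp r a s)])
  exact le_of_sq_le_sq' h1 (by positivity)
where
  le_of_sq_le_sq' {x y : ℝ} (h : x ^ 2 ≤ y ^ 2) (hy : 0 ≤ y) : x ≤ y := by
    by_contra hc
    push Not at hc
    nlinarith

noncomputable def nm (r : ℤ) (a κ s : ℝ) : ℝ := κ ^ 2 * ww r a κ s / 2 + 1 / (2 * κ ^ 2)

lemma mm_norm_le' (hκ : 0 < κ) (s : ℝ) : ‖mm r a κ s‖ ≤ nm r a κ s := by
  unfold nm
  rw [← mm_normSq]
  set x := ‖mm r a κ s‖
  have h1 : 0 ≤ (κ * x - 1 / κ) ^ 2 := sq_nonneg _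
  have h2 : (κ * x - 1 / κ) ^ 2 = κ ^ 2 * x ^ 2 - 2 * x + 1 / κ ^ 2 := by
    field_simp
    ring
  have h3 : 1 / (2 * κ ^ 2) = 1 / κ ^ 2 / 2 := by rw [div_div]; ring
  rw [h3]
  linarith

lemma mm_deriv (hκ : 0 < κ) (s : ℝ) : HasDerivAt (mm r a κ)
    (-(Complex.I * (a * Real.sin s : ℝ)) * mm r a κ s ^ 2) s := by
  have h1 : HasDerivAt (fun s : ℝ => (κ : ℂ) - Complex.I * (pp r a s : ℝ))
      (-(Complex.I * ((-(a * Real.sin s) : ℝ) : ℂ))) s := by
    have := ((pp_deriv r a s).ofReal_comp.const_mul Complex.I).const_sub (κ : ℂ)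
    exact this
  have h2 := h1.inv (mden_ne hκ s)
  refine (h2.congr_deriv ?_).congr_of_eventuallyEq (Eventually.of_forall fun y => rfl)
  unfold mm
  push_cast
  field_simp

lemma J_le (hκ : 0 < κ) : ∫ s in (0:ℝ)..Real.pi, a * Real.sin s * ww r a κ s ≤ Real.pi / κ := by
  have h1 : ∀ s, HasDerivAt (fun s => -(Real.arctan (pp r a s / κ) / κ))
      (a * Real.sin s * ww r a κ s) s := by
    intro s
    have h2 := (((pp_deriv r a s).div_const κ).arctan.div_const κ).neg
    refine h2.congr_deriv ?_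
    unfold ww
    have := den_pos (r := r) (a := a) hκ s
    field_simp
  rw [intervalIntegral.integral_eq_sub_of_hasDerivAt (fun s _ => h1 s) (by
    apply Continuous.intervalIntegrable
    have := ww_cont (r := r) (a := a) hκ
    fun_prop)]
  have h3 := Real.arctan_lt_pi_div_two (pp r a 0 / κ)
  have h4 := Real.neg_pi_div_two_lt_arctan (pp r a Real.pi / κ)
  have e : -(Real.arctan (pp r a Real.pi / κ) / κ) - -(Real.arctan (pp r a 0 / κ) / κ) =
      (Real.arctan (pp r a 0 / κ) - Real.arctan (pp r a Real.pi / κ)) / κ := by ring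
  rw [e]
  apply div_le_div_of_nonneg_right _ hκ.le
  linarith

lemma ww_le (hκ : 0 < κ) (ha : 0 < a) (hr : 3 * |(r:ℝ)| ≤ a) {s : ℝ} (hs : s ∈ Icc 0 Real.pi) :
    ww r a κ s ≤ 2 * (Real.sin s * ww r a κ s) + 4 / a ^ 2 := by
  have hw := ww_pos (r := r) (a := a) hκ s
  have h4 : 0 < 4 / a ^ 2 := by positivity
  have hsin := Real.sin_nonneg_of_nonneg_of_le_pi hs.1 hs.2
  rcases le_or_gt (1 / 2) (Real.sin s) with h | h
  · nlinarith
  · have h1 : ww r a κ s ≤ 4 / a ^ 2 := by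
      unfold ww
      rw [inv_le_comm₀ (den_pos hκ s) h4, inv_div]
      have h2 : (43 / 50) ^ 2 ≤ Real.cos s ^ 2 := by
        nlinarith [Real.sin_sq_add_cos_sq s]
      have h3 : 43 / 50 ≤ |Real.cos s| := by
        rw [← sq_abs (Real.cos s)] at h2
        nlinarith [abs_nonneg (Real.cos s)]
      have h5 : a / 2 ≤ |pp r a s| := by
        unfold pp
        have h6 : |a * Real.cos s| ≤ |(r:ℝ) + a * Real.cos s| + |(r:ℝ)| := by
          have h7 := abs_sub_abs_le_abs_sub (a * Real.cos s) (-(r:ℝ))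
          rw [abs_neg, sub_neg_eq_add, add_comm (a * Real.cos s)] at h7
          linarith
        rw [abs_mul, abs_of_pos ha] at h6
        nlinarith
      have h8 : (a / 2) ^ 2 ≤ pp r a s ^ 2 := by
        rw [← sq_abs (pp r a s)]
        exact pow_le_pow_left₀ (by positivity) h5 2
      nlinarith [sq_nonneg κ]
    nlinarith [mul_nonneg hsin hw.le]

lemma nm_cont (hκ : 0 < κ) : Continuous (nm r a κ) := by
  unfold nm
  have := ww_cont (r := r) (a := a) hκ
  fun_prop

lemma nm_int (hκ : 1 ≤ κ) (ha : a = κ ^ 3) (hr : 3 * |(r:ℝ)| ≤ a) :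
    ∫ s in (0:ℝ)..Real.pi, nm r a κ s ≤ 12 / κ ^ 2 := by
  have hκ0 : 0 < κ := by linarith
  have ha0 : 0 < a := by rw [ha]; positivity
  have hpi := Real.pi_pos
  have hwc := ww_cont (r := r) (a := a) hκ0
  have h1 : ∫ s in (0:ℝ)..Real.pi, nm r a κ s ≤
      ∫ s in (0:ℝ)..Real.pi, (κ ^ 2 / a * (a * Real.sin s * ww r a κ s) +
        (2 * κ ^ 2 / a ^ 2 + 1 / (2 * κ ^ 2))) := by
    refine intervalIntegral.integral_mono_on hpi.le ((nm_cont hκ0).intervalIntegrable _ _)
      (Continuous.intervalIntegrable (by fun_prop) _ _) fun s hs => ?_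
    have h2 := ww_le (r := r) hκ0 ha0 hr hs
    unfold nm
    have h3 : κ ^ 2 / a * (a * Real.sin s * ww r a κ s) = κ ^ 2 * (Real.sin s * ww r a κ s) := by
      field_simp
    rw [h3]
    have h4 : 2 * κ ^ 2 / a ^ 2 = κ ^ 2 / 2 * (4 / a ^ 2) := by ring
    rw [h4]
    have h5 : 0 < κ ^ 2 := by positivity
    nlinarith
  refine h1.trans ?_
  rw [intervalIntegral.integral_add (Continuous.intervalIntegrable (by fun_prop) _ _)
    intervalIntegrable_const, intervalIntegral.integral_const_mul,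
    intervalIntegral.integral_const]
  have h2 := J_le (r := r) (a := a) hκ0
  have h3 : κ ^ 2 / a * (∫ s in (0:ℝ)..Real.pi, a * Real.sin s * ww r a κ s) ≤
      κ ^ 2 / a * (Real.pi / κ) := mul_le_mul_of_nonneg_left h2 (by positivity)
  have h4 : κ ^ 2 / a * (Real.pi / κ) = Real.pi / κ ^ 2 := by
    rw [ha]; field_simp
  have h5 : 2 * κ ^ 2 / a ^ 2 = 2 / κ ^ 4 := by
    rw [ha]; field_simp
  have h6 : 2 / κ ^ 4 ≤ 2 / κ ^ 2 := by
    apply div_le_div_of_nonneg_left (by norm_num) (by positivity)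
    exact pow_le_pow_right₀ hκ (by norm_num)
  have h7 : 1 / (2 * κ ^ 2) = (1 / 2) / κ ^ 2 := by field_simp
  rw [h4] at h3
  rw [h5, h7, sub_zero, smul_eq_mul]
  have h8 : Real.pi * (2 / κ ^ 4 + 1 / 2 / κ ^ 2) ≤ Real.pi * (5 / 2 / κ ^ 2) := by
    apply mul_le_mul_of_nonneg_left _ hpi.le
    have : 5 / 2 / κ ^ 2 = 2 / κ ^ 2 + 1 / 2 / κ ^ 2 := by ring
    linarith
  have h9 : Real.pi / κ ^ 2 + Real.pi * (5 / 2 / κ ^ 2) = (7 / 2 * Real.pi) / κ ^ 2 := by ring
  have h10 : (7 / 2 * Real.pi) / κ ^ 2 ≤ 12 / κ ^ 2 := by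
    apply div_le_div_of_nonneg_right _ (by positivity)
    have := Real.pi_lt_d2
    linarith
  linarith

/-- the van der Corput type estimate -/
theorem vdc (hκ : 1 ≤ κ) (ha : a = κ ^ 3) (hr : 3 * |(r:ℝ)| ≤ a) {f f' : ℝ → ℂ}
    (hf : ∀ s, HasDerivAt f (f' s) s) (hf' : Continuous f') {B B1 : ℝ}
    (hB : ∀ s ∈ Icc 0 Real.pi, ‖f s‖ ≤ B) (hB1 : ∀ s ∈ Icc 0 Real.pi, ‖f' s‖ ≤ B1) {y : ℝ}
    (hy : y ∈ Icc 0 Real.pi) :
    ‖∫ s in (0:ℝ)..y, f s * Complex.exp (Complex.I * (Th r a s : ℝ))‖ ≤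
      12 * B1 / κ ^ 2 + 18 * B / κ := by
  have hκ0 : 0 < κ := by linarith
  have ha0 : 0 < a := by rw [ha]; positivity
  have hpi := Real.pi_pos
  have hB0 : 0 ≤ B := (norm_nonneg _).trans (hB 0 ⟨le_rfl, hpi.le⟩)
  have hB10 : 0 ≤ B1 := (norm_nonneg _).trans (hB1 0 ⟨le_rfl, hpi.le⟩)
  have hfc : Continuous f := continuous_iff_continuousAt.2 fun s => (hf s).continuousAt
  have hmc : Continuous (mm r a κ) :=
    continuous_iff_continuousAt.2 fun s => (mm_deriv hκ0 s).continuousAt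
  have hwc := ww_cont (r := r) (a := a) hκ0
  have hnc := nm_cont (r := r) (a := a) hκ0
  set e : ℝ → ℂ := fun s => Complex.exp (Complex.I * (Th r a s : ℝ)) with he
  have hed : ∀ s, HasDerivAt e (e s * (Complex.I * (pp r a s : ℝ))) s := by
    intro s
    have := ((Th_deriv r a s).ofReal_comp.const_mul Complex.I).cexp
    exact this
  have hec : Continuous e := continuous_iff_continuousAt.2 fun s => (hed s).continuousAt
  have hen : ∀ s, ‖e s‖ = 1 := by
    intro s
    simp only [he]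
    rw [mul_comm]
    exact Complex.norm_exp_ofReal_mul_I _
  have hgd : ∀ s, HasDerivAt (fun s => f s * mm r a κ s * e s)
      (f' s * mm r a κ s * e s + f s * (-(Complex.I * (a * Real.sin s : ℝ)) * mm r a κ s ^ 2) * e s
        + f s * mm r a κ s * (e s * (Complex.I * (pp r a s : ℝ)))) s := by
    intro s
    have := ((hf s).mul (mm_deriv (r := r) (a := a) hκ0 s)).mul (hed s)
    refine this.congr_deriv ?_
    simp only [Pi.mul_apply]
    ring
  set H : ℝ → ℂ := fun s => f' s * mm r a κ s * e s +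
    f s * (-(Complex.I * (a * Real.sin s : ℝ)) * mm r a κ s ^ 2) * e s +
    κ * f s * mm r a κ s * e s with hH
  have hHc : Continuous H := by
    simp only [hH]
    have : Continuous fun s : ℝ => ((a * Real.sin s : ℝ) : ℂ) :=
      Complex.continuous_ofReal.comp (by fun_prop)
    fun_prop
  have hid : ∀ s, f s * e s = H s - (f' s * mm r a κ s * e s +
      f s * (-(Complex.I * (a * Real.sin s : ℝ)) * mm r a κ s ^ 2) * e s
        + f s * mm r a κ s * (e s * (Complex.I * (pp r a s : ℝ)))) := by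
    intro s
    have h1 : mm r a κ s * ((κ : ℂ) - Complex.I * (pp r a s : ℝ)) = 1 := by
      unfold mm
      exact inv_mul_cancel₀ (mden_ne hκ0 s)
    simp only [hH]
    linear_combination (-(f s * e s)) * h1
  have hgc' : Continuous fun s => (f' s * mm r a κ s * e s +
      f s * (-(Complex.I * (a * Real.sin s : ℝ)) * mm r a κ s ^ 2) * e s
        + f s * mm r a κ s * (e s * (Complex.I * (pp r a s : ℝ)))) := by
    have h1 : Continuous fun s : ℝ => ((a * Real.sin s : ℝ) : ℂ) :=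
      Complex.continuous_ofReal.comp (by fun_prop)
    have h2 : Continuous fun s : ℝ => ((pp r a s : ℝ) : ℂ) :=
      Complex.continuous_ofReal.comp (pp_cont r a)
    fun_prop
  have h1 : ∫ s in (0:ℝ)..y, f s * e s = (∫ s in (0:ℝ)..y, H s) -
      (f y * mm r a κ y * e y - f 0 * mm r a κ 0 * e 0) := by
    rw [← intervalIntegral.integral_eq_sub_of_hasDerivAt (fun s _ => hgd s)
      (hgc'.intervalIntegrable _ _), ← intervalIntegral.integral_sub
      (hHc.intervalIntegrable _ _) (hgc'.intervalIntegrable _ _)]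
    exact intervalIntegral.integral_congr fun s _ => hid s
  set G : ℝ → ℝ := fun s => (B1 + κ * B) * nm r a κ s + B * (a * Real.sin s * ww r a κ s) with hG
  have hGc : Continuous G := by simp only [hG]; fun_prop
  have hnm : ∀ s, 0 ≤ nm r a κ s := fun s => (norm_nonneg _).trans (mm_norm_le' hκ0 s)
  have hHG : ∀ s ∈ Icc 0 Real.pi, ‖H s‖ ≤ G s := by
    intro s hs
    have hsin := Real.sin_nonneg_of_nonneg_of_le_pi hs.1 hs.2
    have b1 : ‖f' s * mm r a κ s * e s‖ ≤ B1 * nm r a κ s := by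
      rw [norm_mul, norm_mul, hen, mul_one]
      exact mul_le_mul (hB1 s hs) (mm_norm_le' hκ0 s) (norm_nonneg _) hB10
    have b2 : ‖f s * (-(Complex.I * (a * Real.sin s : ℝ)) * mm r a κ s ^ 2) * e s‖ ≤
        B * (a * Real.sin s * ww r a κ s) := by
      rw [norm_mul, norm_mul, hen, mul_one, norm_mul, norm_neg, norm_mul, Complex.norm_I, one_mul,
        Complex.norm_real, Real.norm_of_nonneg (by positivity), norm_pow, mm_normSq]
      have := ww_pos (r := r) (a := a) hκ0 s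
      exact mul_le_mul_of_nonneg_right (hB s hs) (by positivity)
    have b3 : ‖(κ:ℂ) * f s * mm r a κ s * e s‖ ≤ κ * B * nm r a κ s := by
      rw [norm_mul, norm_mul, norm_mul, hen, mul_one, Complex.norm_real,
        Real.norm_of_nonneg hκ0.le]
      exact mul_le_mul (mul_le_mul_of_nonneg_left (hB s hs) hκ0.le) (mm_norm_le' hκ0 s)
        (norm_nonneg _) (by positivity)
    simp only [hH, hG]
    refine (norm_add₃_le).trans ?_
    linarith
  have h2 : ‖∫ s in (0:ℝ)..y, H s‖ ≤ ∫ s in (0:ℝ)..y, G s :=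
    intervalIntegral.norm_integral_le_of_norm_le hy.1
      (ae_of_all _ fun s hs => hHG s ⟨hs.1.le, hs.2.trans hy.2⟩) (hGc.intervalIntegrable _ _)
  have h3 : ∫ s in (0:ℝ)..y, G s ≤ ∫ s in (0:ℝ)..Real.pi, G s := by
    rw [← intervalIntegral.integral_add_adjacent_intervals (hGc.intervalIntegrable 0 y)
      (hGc.intervalIntegrable y Real.pi)]
    have : 0 ≤ ∫ s in y..Real.pi, G s := by
      refine intervalIntegral.integral_nonneg hy.2 fun s hs => ?_
      exact (norm_nonneg _).trans (hHG s ⟨hy.1.trans hs.1, hs.2⟩)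
    linarith
  have h4 : ∫ s in (0:ℝ)..Real.pi, G s ≤ (B1 + κ * B) * (12 / κ ^ 2) + B * (Real.pi / κ) := by
    simp only [hG]
    rw [intervalIntegral.integral_add (Continuous.intervalIntegrable (by fun_prop) _ _)
      (Continuous.intervalIntegrable (by fun_prop) _ _), intervalIntegral.integral_const_mul,
      intervalIntegral.integral_const_mul]
    exact add_le_add (mul_le_mul_of_nonneg_left (nm_int hκ ha hr) (by positivity))
      (mul_le_mul_of_nonneg_left (J_le hκ0) hB0)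
  have h5 : ∀ s ∈ Icc 0 Real.pi, ‖f s * mm r a κ s * e s‖ ≤ B / κ := by
    intro s hs
    rw [norm_mul, norm_mul, hen, mul_one, div_eq_mul_one_div]
    exact mul_le_mul (hB s hs) (mm_norm_le hκ0 s) (norm_nonneg _) hB0
  rw [h1]
  have h6 := norm_sub_le (∫ s in (0:ℝ)..y, H s) (f y * mm r a κ y * e y - f 0 * mm r a κ 0 * e 0)
  have h7 := norm_sub_le (f y * mm r a κ y * e y) (f 0 * mm r a κ 0 * e 0)
  have h8 := h5 y hy
  have h9 := h5 0 ⟨le_rfl, hpi.le⟩
  have e1 : (B1 + κ * B) * (12 / κ ^ 2) + B * (Real.pi / κ) + 2 * (B / κ) =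
      12 * B1 / κ ^ 2 + (14 + Real.pi) * B / κ := by
    field_simp
    ring
  have h10 : (14 + Real.pi) * B / κ ≤ 18 * B / κ := by
    apply div_le_div_of_nonneg_right _ hκ0.le
    apply mul_le_mul_of_nonneg_right _ hB0
    have := Real.pi_lt_d2
    linarith
  linarith

end Pool.Agent.Q180.PL
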